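import Pool.Agent.H37R3.Lag.Leaf
import Pool.Agent.H122R2.N6.Bound2

/-! The averaged inequality with degree terms and the term for pairs of triples. -/

set_option autoImplicit false
set_option maxRecDepth 100000
set_option maxHeartbeats 4000000
open Finset

namespace Pool.Agent.H37R3.Lag
open Pool.Agent.H122R2.N6 Pool.Agent.H37R3.Pen Pool.Agent.H37R3.K5

def bit (i k : ℕ) : ℕ := Nat.mod (Nat.shiftRight i k) 2

def ct (c : ℕ → ℕ) (i : ℕ) : ℕ :=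
  c (Nat.add (Nat.mul 2 (Nat.add (bit i 0) (Nat.add (bit i 1) (bit i 2)))) (bit i 3))

def ct' (c : ℕ → ℕ) (i : ℕ) : ℕ :=
  c (Nat.add (Nat.mul 2 (Nat.add (bit i 0) (Nat.add (bit i 1) (bit i 3)))) (bit i 2))

def rP (c : ℕ → ℕ) (D i j : ℕ) : ℕ :=
  Nat.mul D (Nat.add (Nat.mul (ct c i) (bit j 2)) (Nat.add (Nat.mul (ct' c i) (bit j 3))
    (Nat.add (Nat.mul (ct c j) (bit i 2)) (Nat.mul (ct' c j) (bit i 3)))))

def rM (c : ℕ → ℕ) (N i j : ℕ) : ℕ :=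
  Nat.mul N (Nat.add (ct c i) (Nat.add (ct' c i) (Nat.add (ct c j) (ct' c j))))

theorem bit_cd4 {x y z w : ℕ} (hx : Bt x) (hy : Bt y) (hz : Bt z) (hw : Bt w) :
    bit (cd4 x y z w) 0 = x ∧ bit (cd4 x y z w) 1 = y ∧ bit (cd4 x y z w) 2 = z ∧
      bit (cd4 x y z w) 3 = w := by
  rcases hx with rfl | rfl <;> rcases hy with rfl | rfl <;> rcases hz with rfl | rfl <;>
    rcases hw with rfl | rfl <;> exact ⟨rfl, rfl, rfl, rfl⟩

theorem ct_cd4 (c : ℕ → ℕ) {x y z w : ℕ} (hx : Bt x) (hy : Bt y) (hz : Bt z) (hw : Bt w) :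
    ct c (cd4 x y z w) = c (2 * (x + (y + z)) + w) := by
  obtain ⟨h0, h1, h2, h3⟩ := bit_cd4 hx hy hz hw
  unfold ct
  rw [h0, h1, h2, h3]
  rfl

theorem ct'_cd4 (c : ℕ → ℕ) {x y z w : ℕ} (hx : Bt x) (hy : Bt y) (hz : Bt z) (hw : Bt w) :
    ct' c (cd4 x y z w) = c (2 * (x + (y + w)) + z) := by
  obtain ⟨h0, h1, h2, h3⟩ := bit_cd4 hx hy hz hw
  unfold ct'
  rw [h0, h1, h2, h3]
  rfl

section
variable {V : Type} (E : V → V → V → ℕ)

/-- the class of a rooted quadruple -/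
def cl (c : ℕ → ℕ) (a b x y : V) : ℕ := c (2 * (E a b x + (E a b y + E a x y)) + E b x y)

def hh (c : ℕ → ℕ) (D N : ℕ) (a b x y e f : V) : ℤ :=
  (cl E c a b x y : ℤ) * ((D : ℤ) * (E a e f : ℤ) - N)

theorem r_eq {E : V → V → V → ℕ} (hE : Sy E) (c : ℕ → ℕ) (D N : ℕ) (a b x y e f : V) :
    (rP c D (cd4 (E a b x) (E a b y) (E a x y) (E b x y)) (cd4 (E a b e) (E a b f) (E a e f) (E b e f)) : ℤ)
      - (rM c N (cd4 (E a b x) (E a b y) (E a x y) (E b x y)) (cd4 (E a b e) (E a b f) (E a e f) (E b e f)) : ℤ)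
    = hh E c D N a b x y e f + hh E c D N b a x y e f + hh E c D N a b e f x y
      + hh E c D N b a e f x y := by
  obtain ⟨-, -, i2, i3⟩ := bit_cd4 (hE.b a b x) (hE.b a b y) (hE.b a x y) (hE.b b x y)
  obtain ⟨-, -, j2, j3⟩ := bit_cd4 (hE.b a b e) (hE.b a b f) (hE.b a e f) (hE.b b e f)
  unfold rP rM
  rw [i2, i3, j2, j3, ct_cd4 c (hE.b a b x) (hE.b a b y) (hE.b a x y) (hE.b b x y),
    ct'_cd4 c (hE.b a b x) (hE.b a b y) (hE.b a x y) (hE.b b x y),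
    ct_cd4 c (hE.b a b e) (hE.b a b f) (hE.b a e f) (hE.b b e f),
    ct'_cd4 c (hE.b a b e) (hE.b a b f) (hE.b a e f) (hE.b b e f)]
  unfold hh cl
  rw [hE.h213 a b x, hE.h213 a b y, hE.h213 a b e, hE.h213 a b f]
  simp only [Nat.add_eq, Nat.mul_eq]
  push_cast
  ring
end

section
variable {V : Type} [Fintype V] (E : V → V → V → ℕ)

theorem lower2r (hE : Sy E) (K : ℕ) (q2 : ℕ → ℕ → ℕ) (W : ℕ → ℕ) (l : ℕ → ℕ → ℕ) (B O2 : ℤ)
    (c : ℕ → ℕ) (D N : ℕ)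
    (hq2 : ∀ i j, i < 16 → j < 16 → (q2 i j : ℤ) =
      ∑ k ∈ range K, (W k : ℤ) * ((l i k : ℤ) - B) * ((l j k : ℤ) - B)
        + (O2 + ((rP c D i j : ℤ) - (rM c N i j : ℤ)))) :
    O2 * (Fintype.card V : ℤ) ^ 6 + 4 * ∑ x : Fin 6 → V, hh E c D N (x 0) (x 1) (x 2) (x 3) (x 4) (x 5)
      ≤ ∑ x : Fin 6 → V, (F2 E q2 (x 0) (x 1) (x 2) (x 3) (x 4) (x 5) : ℤ) := by
  have f3 : ∀ i0 i1 i2 i3 i4 i5 : Fin 6, Function.Injective ![i0, i1, i2, i3, i4, i5] →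
      ∑ x : Fin 6 → V, hh E c D N (x i0) (x i1) (x i2) (x i3) (x i4) (x i5)
      = ∑ x : Fin 6 → V, hh E c D N (x 0) (x 1) (x 2) (x 3) (x 4) (x 5) :=
    fun i0 i1 i2 i3 i4 i5 hg =>
      psum (fun a b c' d e f => hh E c D N a b c' d e f) ![i0, i1, i2, i3, i4, i5]
        (Finite.injective_iff_bijective.mp hg)
  have e4 : 4 * ∑ x : Fin 6 → V, hh E c D N (x 0) (x 1) (x 2) (x 3) (x 4) (x 5) =
      ∑ x : Fin 6 → V, (hh E c D N (x 0) (x 1) (x 2) (x 3) (x 4) (x 5)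
        + hh E c D N (x 1) (x 0) (x 2) (x 3) (x 4) (x 5)
        + hh E c D N (x 0) (x 1) (x 4) (x 5) (x 2) (x 3)
        + hh E c D N (x 1) (x 0) (x 4) (x 5) (x 2) (x 3)) := by
    simp only [sum_add_distrib]
    rw [f3 1 0 2 3 4 5 (by decide), f3 0 1 4 5 2 3 (by decide), f3 1 0 4 5 2 3 (by decide)]
    ring
  rw [e4, conv6 (fun a b c' d e f => (F2 E q2 a b c' d e f : ℤ)),
    conv6 (fun a b x y e f => hh E c D N a b x y e f + hh E c D N b a x y e f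
      + hh E c D N a b e f x y + hh E c D N b a e f x y)]
  have e1 : O2 * (Fintype.card V : ℤ) ^ 6 + ∑ a, ∑ b, ∑ x, ∑ y, ∑ e, ∑ f,
        (hh E c D N a b x y e f + hh E c D N b a x y e f
      + hh E c D N a b e f x y + hh E c D N b a e f x y)
      = ∑ a : V, ∑ b : V, ∑ x : V, ∑ y : V, ∑ e : V, ∑ f : V,
        (O2 + (hh E c D N a b x y e f + hh E c D N b a x y e f
      + hh E c D N a b e f x y + hh E c D N b a e f x y)) := by
    simp only [sum_add_distrib, sum_const, card_univ, nsmul_eq_mul]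
    ring
  rw [e1]
  refine sum_le_sum fun a _ => sum_le_sum fun b _ => ?_
  have e2 : ∀ x y e f : V, (F2 E q2 a b x y e f : ℤ) =
      ∑ k ∈ range K, (W k : ℤ) *
        ((l (cd4 (E a b x) (E a b y) (E a x y) (E b x y)) k : ℤ) - B) *
        ((l (cd4 (E a b e) (E a b f) (E a e f) (E b e f)) k : ℤ) - B)
      + (O2 + (hh E c D N a b x y e f + hh E c D N b a x y e f
      + hh E c D N a b e f x y + hh E c D N b a e f x y)) := fun x y e f => by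
    have h := hq2 _ _ (cd4_lt (hE.b a b x) (hE.b a b y) (hE.b a x y) (hE.b b x y))
      (cd4_lt (hE.b a b e) (hE.b a b f) (hE.b a e f) (hE.b b e f))
    rw [r_eq hE] at h
    exact h
  have p := psd (ι := V × V) K W
    (fun k q => (l (cd4 (E a b q.1) (E a b q.2) (E a q.1 q.2) (E b q.1 q.2)) k : ℤ) - B)
  simp only [Fintype.sum_prod_type] at p
  have e3 : ∑ x : V, ∑ y : V, ∑ e : V, ∑ f : V, (F2 E q2 a b x y e f : ℤ) =
      (∑ x : V, ∑ y : V, ∑ e : V, ∑ f : V, ∑ k ∈ range K, (W k : ℤ) *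
        ((l (cd4 (E a b x) (E a b y) (E a x y) (E b x y)) k : ℤ) - B) *
        ((l (cd4 (E a b e) (E a b f) (E a e f) (E b e f)) k : ℤ) - B)) +
      ∑ x : V, ∑ y : V, ∑ e : V, ∑ f : V, (O2 + (hh E c D N a b x y e f + hh E c D N b a x y e f
      + hh E c D N a b e f x y + hh E c D N b a e f x y)) := by
    simp only [← sum_add_distrib]
    exact sum_congr rfl fun x _ => sum_congr rfl fun y _ => sum_congr rfl fun e _ =>
      sum_congr rfl fun f _ => e2 x y e f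
  rw [e3]
  linarith

theorem boundG (hE : Sy E) (K K2 C : ℕ) (q4 : ℕ → ℕ → ℕ → ℕ) (W : ℕ → ℕ → ℕ) (l : ℕ → ℕ → ℕ → ℕ)
    (q2 : ℕ → ℕ → ℕ) (W2 : ℕ → ℕ) (l2 : ℕ → ℕ → ℕ) (B O4 O2 : ℤ) (c : ℕ → ℕ) (D N : ℕ)
    (g3 : ℕ → ℕ → ℕ) (G0 : ℕ)
    (hq4 : ∀ c i j, c < 16 → i < 64 → j < 64 → (q4 c i j : ℤ) =
      ∑ k ∈ range K, (W c k : ℤ) * ((l c i k : ℤ) - B) * ((l c j k : ℤ) - B) + O4)
    (hq2 : ∀ i j, i < 16 → j < 16 → (q2 i j : ℤ) =
      ∑ k ∈ range K2, (W2 k : ℤ) * ((l2 i k : ℤ) - B) * ((l2 j k : ℤ) - B)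
        + (O2 + ((rP c D i j : ℤ) - (rM c N i j : ℤ))))
    (hleaf : ∀ a b c d e f : V, L4 E q4 a b c d e f + (L2 E q2 a b c d e f + L3 E g3 G0 a b c d e f) ≤ C) :
    180 * ∑ x : Fin 6 → V, hh E c D N (x 0) (x 1) (x 2) (x 3) (x 4) (x 5)
      + 20 * ∑ x : Fin 6 → V, (F3 E g3 G0 (x 0) (x 1) (x 2) (x 3) (x 4) (x 5) : ℤ)
      + (15 * O4 + 45 * O2) * (Fintype.card V : ℤ) ^ 6
      ≤ C * (Fintype.card V : ℤ) ^ 6 := by
  have A4 := lower4 E hE K q4 W l B O4 (fun _ => 0) (fun c i j hc hi hj => by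
    rw [hq4 c i j hc hi hj, add_zero])
  have hz : Sv E (fun _ => 0) = 0 := by unfold Sv; simp
  rw [hz] at A4
  have A2 := lower2r E hE K2 q2 W2 l2 B O2 c D N hq2
  have key : ∑ x : Fin 6 → V, ((L4 E q4 (x 0) (x 1) (x 2) (x 3) (x 4) (x 5) : ℤ)
      + ((L2 E q2 (x 0) (x 1) (x 2) (x 3) (x 4) (x 5) : ℤ)
      + (L3 E g3 G0 (x 0) (x 1) (x 2) (x 3) (x 4) (x 5) : ℤ))) ≤ C * (Fintype.card V : ℤ) ^ 6 := by
    calc _ ≤ ∑ x : Fin 6 → V, (C : ℤ) :=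
          sum_le_sum fun x _ => by exact_mod_cast hleaf (x 0) (x 1) (x 2) (x 3) (x 4) (x 5)
      _ = C * (Fintype.card V : ℤ) ^ 6 := by
          rw [sum_const, card_univ, Fintype.card_fun, Fintype.card_fin, nsmul_eq_mul]
          push_cast
          ring
  rw [sum_add_distrib, sum_add_distrib, sumL4 E q4, sumL2 E q2, sumL3 E g3 G0] at key
  linarith

end
end Pool.Agent.H37R3.Lag
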