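import Pool.Agent.H37R3.Lag.Leaf
import Pool.Agent.H122R2.N6.Count

/-! 3-graphs without a tight cycle on five vertices. -/

set_option autoImplicit false
set_option maxRecDepth 100000
set_option maxHeartbeats 4000000
open Finset
open scoped Classical

namespace Pool.Agent.H37R3.Lag
open Pool.Agent.H122R2.N6 Pool.Agent.H37R3.Pen Pool.Agent.H37R3.K5

def TBC : ℕ := 0xfee8eee8fae8a8a8fea8aa88aaa00000fce8c8c8e0e00000fca88888a0a00000fec8cc88fac88888ee000000aa000000ccc00000c0c00000cc00000000000000fee0eee0f0a0a0a0fa00aa0000000000f0c0c0c000000000f000000000000000fc00cc00f0000000000000000000000000000000000000000000000000000000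

/-- there is a tight cycle on the five vertices -/
def c5b (b012 b013 b023 b123 b014 b024 b124 b034 b134 b234 : ℕ) : Bool := Nat.beq (Nat.mod (Nat.shiftRight TBC (Nat.add b012 (Nat.add (Nat.mul 2 b013) (Nat.add (Nat.mul 4 b023) (Nat.add (Nat.mul 8 b123) (Nat.add (Nat.mul 16 b014) (Nat.add (Nat.mul 32 b024) (Nat.add (Nat.mul 64 b124) (Nat.add (Nat.mul 128 b034) (Nat.add (Nat.mul 256 b134) (Nat.mul 512 b234))))))))))) 2) 1

def f5 (a b c d e : ℕ) : Bool := Nat.beq (Nat.add a (Nat.add b (Nat.add c (Nat.add d e)))) 5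

theorem c5b_chk : (B2 fun b012 => B2 fun b013 => B2 fun b023 => B2 fun b123 => B2 fun b014 => B2 fun b024 => B2 fun b124 => B2 fun b034 => B2 fun b134 => B2 fun b234 =>  or (not (c5b b012 b013 b023 b123 b014 b024 b124 b034 b134 b234)) (or (f5 b012 b123 b234 b034 b014) (or (f5 b012 b124 b234 b034 b013) (or (f5 b013 b123 b234 b024 b014) (or (f5 b013 b134 b234 b024 b012) (or (f5 b014 b124 b234 b023 b013) (or (f5 b014 b134 b234 b023 b012) (or (f5 b012 b123 b134 b034 b024) (or (f5 b012 b124 b134 b034 b023) (or (f5 b023 b123 b134 b014 b024) (or (f5 b024 b124 b134 b013 b023) (or (f5 b013 b123 b124 b024 b034) (f5 b023 b123 b124 b014 b034))))))))))))) = true := by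
  decide +kernel

variable {V : Type}

/-- no tight cycle on five vertices -/
def C5Free (H : Finset (Finset V)) : Prop :=
  ∀ f : Fin 5 → V, Function.Injective f → ∃ i : Fin 5, ({f i, f (i + 1), f (i + 2)} : Finset V) ∉ H

theorem f5_tri {H : Finset (Finset V)} {a b c a' b' c' a'' b'' c'' x y z x' y' z' : V}
    (h : f5 (tri H a b c) (tri H a' b' c') (tri H a'' b'' c'') (tri H x y z) (tri H x' y' z') = true) :
    tri H a b c = 1 ∧ tri H a' b' c' = 1 ∧ tri H a'' b'' c'' = 1 ∧ tri H x y z = 1 ∧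
      tri H x' y' z' = 1 := by
  have h4 := Nat.eq_of_beq_eq_true h
  simp only [Nat.add_eq] at h4
  have hb : ∀ x y z : V, tri H x y z ≤ 1 := by
    intro x y z
    unfold tri
    split_ifs <;> simp
  have b1 := hb a b c
  have b2 := hb a' b' c'
  have b3 := hb a'' b'' c''
  have b4 := hb x y z
  have b5 := hb x' y' z'
  refine ⟨?_, ?_, ?_, ?_, ?_⟩ <;> omega

theorem tri_mem {H : Finset (Finset V)} {a b c : V} (h : tri H a b c = 1) :
    ({a, b, c} : Finset V) ∈ H := by
  unfold tri at h
  split_ifs at h with h'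
  exact h'

theorem cyc_false {H : Finset (Finset V)} (hH : ∀ e ∈ H, e.card = 3) (hF : C5Free H) {a b c d e : V}
    (g1 : tri H a b c = 1) (g2 : tri H b c d = 1) (g3 : tri H c d e = 1) (g4 : tri H d e a = 1)
    (g5 : tri H e a b = 1) : False := by
  have h1 := tri_mem g1
  have h2 := tri_mem g2
  have h3 := tri_mem g3
  have h4 := tri_mem g4
  have h5 := tri_mem g5
  have d1 := distinct_of_mem hH h1
  have d2 := distinct_of_mem hH h2
  have d3 := distinct_of_mem hH h3
  have d4 := distinct_of_mem hH h4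
  have d5 := distinct_of_mem hH h5
  have hinj : Function.Injective ![a, b, c, d, e] := by
    intro i j hij
    fin_cases i <;> fin_cases j <;> first | rfl | skip
    all_goals
      exfalso
      simp at hij
      first
        | exact d1.1 hij | exact d1.2.1 hij | exact d1.2.2 hij | exact d2.2.1 hij | exact d2.2.2 hij
        | exact d3.2.1 hij | exact d3.2.2 hij | exact d4.2.1 hij | exact d4.2.2 hij | exact d5.1 hij
        | exact d5.2.2 hij | exact d5.2.1 hij
        | exact d1.1 hij.symm | exact d1.2.1 hij.symm | exact d1.2.2 hij.symm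
        | exact d2.2.1 hij.symm | exact d2.2.2 hij.symm
        | exact d3.2.1 hij.symm | exact d3.2.2 hij.symm | exact d4.2.1 hij.symm
        | exact d4.2.2 hij.symm | exact d5.1 hij.symm
        | exact d5.2.2 hij.symm | exact d5.2.1 hij.symm
  obtain ⟨i, hi⟩ := hF _ hinj
  fin_cases i
  · exact hi h1
  · exact hi h2
  · exact hi h3
  · exact hi h4
  · exact hi h5

theorem tri_noC5 {H : Finset (Finset V)} (hH : ∀ e ∈ H, e.card = 3) (hF : C5Free H) :
    NoB c5b (tri H) := by
  intro a b c d e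
  by_contra hcon
  rw [Bool.not_eq_false] at hcon
  have hE := tri_sy H
  have h := (B2_true (B2_true (B2_true (B2_true (B2_true (B2_true (B2_true (B2_true (B2_true (B2_true c5b_chk (hE.b a b c)) (hE.b a b d)) (hE.b a c d)) (hE.b b c d)) (hE.b a b e)) (hE.b a c e)) (hE.b b c e)) (hE.b a d e)) (hE.b b d e)) (hE.b c d e))
  rw [hcon] at h
  simp only [Bool.not_true, Bool.false_or, Bool.or_eq_true] at h
  rcases h with h | h | h | h | h | h | h | h | h | h | h | h
  · obtain ⟨h1, h2, h3, h4, h5⟩ := f5_tri h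
    exact cyc_false hH hF (a := a) (b := b) (c := c) (d := d) (e := e)
      h1 h2 h3 ((hE.h231 a d e).trans h4) ((hE.h312 a b e).trans h5)
  · obtain ⟨h1, h2, h3, h4, h5⟩ := f5_tri h
    exact cyc_false hH hF (a := a) (b := b) (c := c) (d := e) (e := d)
      h1 h2 ((hE.h132 c d e).trans h3) ((hE.h213 d e a).trans ((hE.h231 a d e).trans h4)) ((hE.h312 a b d).trans h5)
  · obtain ⟨h1, h2, h3, h4, h5⟩ := f5_tri h
    exact cyc_false hH hF (a := a) (b := b) (c := d) (d := c) (e := e)
      h1 ((hE.h132 b c d).trans h2) ((hE.h213 c d e).trans h3) ((hE.h231 a c e).trans h4) ((hE.h312 a b e).trans h5)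
  · obtain ⟨h1, h2, h3, h4, h5⟩ := f5_tri h
    exact cyc_false hH hF (a := a) (b := b) (c := d) (d := e) (e := c)
      h1 h2 ((hE.h231 c d e).trans h3) ((hE.h213 c e a).trans ((hE.h231 a c e).trans h4)) ((hE.h312 a b c).trans h5)
  · obtain ⟨h1, h2, h3, h4, h5⟩ := f5_tri h
    exact cyc_false hH hF (a := a) (b := b) (c := e) (d := c) (e := d)
      h1 ((hE.h132 b c e).trans h2) ((hE.h312 c d e).trans h3) ((hE.h231 a c d).trans h4) ((hE.h312 a b d).trans h5)
  · obtain ⟨h1, h2, h3, h4, h5⟩ := f5_tri h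
    exact cyc_false hH hF (a := a) (b := b) (c := e) (d := d) (e := c)
      h1 ((hE.h132 b d e).trans h2) ((hE.h213 d e c).trans ((hE.h231 c d e).trans h3)) ((hE.h213 c d a).trans ((hE.h231 a c d).trans h4)) ((hE.h312 a b c).trans h5)
  · obtain ⟨h1, h2, h3, h4, h5⟩ := f5_tri h
    exact cyc_false hH hF (a := a) (b := c) (c := b) (d := d) (e := e)
      ((hE.h132 a b c).trans h1) ((hE.h213 b c d).trans h2) h3 ((hE.h231 a d e).trans h4) ((hE.h312 a c e).trans h5)
  · obtain ⟨h1, h2, h3, h4, h5⟩ := f5_tri h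
    exact cyc_false hH hF (a := a) (b := c) (c := b) (d := e) (e := d)
      ((hE.h132 a b c).trans h1) ((hE.h213 b c e).trans h2) ((hE.h132 b d e).trans h3) ((hE.h213 d e a).trans ((hE.h231 a d e).trans h4)) ((hE.h312 a c d).trans h5)
  · obtain ⟨h1, h2, h3, h4, h5⟩ := f5_tri h
    exact cyc_false hH hF (a := a) (b := c) (c := d) (d := b) (e := e)
      h1 ((hE.h231 b c d).trans h2) ((hE.h213 b d e).trans h3) ((hE.h231 a b e).trans h4) ((hE.h312 a c e).trans h5)
  · obtain ⟨h1, h2, h3, h4, h5⟩ := f5_tri h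
    exact cyc_false hH hF (a := a) (b := c) (c := e) (d := b) (e := d)
      h1 ((hE.h231 b c e).trans h2) ((hE.h312 b d e).trans h3) ((hE.h231 a b d).trans h4) ((hE.h312 a c d).trans h5)
  · obtain ⟨h1, h2, h3, h4, h5⟩ := f5_tri h
    exact cyc_false hH hF (a := a) (b := d) (c := b) (d := c) (e := e)
      ((hE.h132 a b d).trans h1) ((hE.h312 b c d).trans h2) h3 ((hE.h231 a c e).trans h4) ((hE.h312 a d e).trans h5)
  · obtain ⟨h1, h2, h3, h4, h5⟩ := f5_tri h
    exact cyc_false hH hF (a := a) (b := d) (c := c) (d := b) (e := e)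
      ((hE.h132 a c d).trans h1) ((hE.h213 c d b).trans ((hE.h231 b c d).trans h2)) ((hE.h213 b c e).trans h3) ((hE.h231 a b e).trans h4) ((hE.h312 a d e).trans h5)

end Pool.Agent.H37R3.Lag
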