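import Pool.Agent.H37R3.Lag.CAPart00
import Pool.Agent.H37R3.Lag.CAPart01
import Pool.Agent.H37R3.Lag.CAPart10
import Pool.Agent.H37R3.Lag.CAPart11
import Pool.Agent.H37R3.Lag.CAPsd
import Pool.Agent.H37R3.Lag.Main

set_option autoImplicit false
set_option maxRecDepth 100000
set_option maxHeartbeats 4000000
open Finset

namespace Pool.Agent.H37R3.CA
open Pool.Agent.H122R2.N6 Pool.Agent.H37R3.Pen Pool.Agent.H37R3.K5 Pool.Agent.H37R3.Lag

theorem hc (b012 b013 b023 b123 b014 b024 b124 b034 b134 b234 : ℕ) (hb012 : Bt b012) (hb013 : Bt b013) (hb023 : Bt b023) (hb123 : Bt b123) (hb014 : Bt b014) (hb024 : Bt b024) (hb124 : Bt b124) (hb034 : Bt b034) (hb134 : Bt b134) (hb234 : Bt b234) (ht : tg5 b012 b013 b023 b123 b014 b024 b124 b034 b134 b234 = 4) :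
    chkG c5b q4 q2 g3 875208919 CST b012 b013 b023 b123 b014 b024 b124 b034 b134 b234 = true := by
  have h : part b012 b013 = true := by
    rcases hb012 with rfl | rfl <;> rcases hb013 with rfl | rfl
    exacts [part00, part01, part10, part11]
  have h2 := (B2_true (B2_true (B2_true (B2_true (B2_true (B2_true (B2_true (B2_true h hb023) hb123) hb014) hb024) hb124) hb034) hb134) hb234)
  refine or_false_left h2 ?_
  rw [ht]
  rfl

theorem rng : (nall 16 fun c => and (Nat.blt (rho c) 5) (nall 64 fun i => Nat.blt (pc c i) 64)) = true := by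
  decide +kernel

theorem rho_lt {c : ℕ} (h : c < 16) : rho c < 5 := by
  have := nall_true rng c h
  rw [Bool.and_eq_true] at this
  exact Nat.le_of_ble_eq_true this.1

theorem pc_lt {c i : ℕ} (h : c < 16) (hi : i < 64) : pc c i < 64 := by
  have := nall_true rng c h
  rw [Bool.and_eq_true] at this
  exact Nat.le_of_ble_eq_true (nall_true this.2 i hi)

theorem g4_all {r i j : ℕ} (hr : r < 5) (hi : i < 64) (hj : j < 64) : g4 r i j = true := by
  have h : chk4 r = true := by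
    interval_cases r
    exacts [cp0, cp1, cp2, cp3, cp4]
  exact nall_true (nall_true h i hi) j hj

theorem expand (s : Finset ℕ) (w u v : ℕ → ℕ) (B : ℤ) :
    ∑ k ∈ s, (w k : ℤ) * ((u k : ℤ) - B) * ((v k : ℤ) - B) =
      ∑ k ∈ s, (w k : ℤ) * ((u k : ℤ) * (v k : ℤ)) + B ^ 2 * ∑ k ∈ s, (w k : ℤ)
        - B * (∑ k ∈ s, (w k : ℤ) * (u k : ℤ) + ∑ k ∈ s, (w k : ℤ) * (v k : ℤ)) := by
  rw [mul_add, mul_sum, mul_sum, mul_sum, ← sum_add_distrib, ← sum_add_distrib, ← sum_sub_distrib]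
  exact sum_congr rfl fun k _ => by ring

theorem hq4 (c i j : ℕ) (hc : c < 16) (hi : i < 64) (hj : j < 64) : (q4 c i j : ℤ) =
    ∑ k ∈ range 24, (w4 (rho c) k : ℤ) * ((l4 (rho c) (pc c i) k : ℤ) - 65536) *
      ((l4 (rho c) (pc c j) k : ℤ) - 65536) + 17179869184 := by
  have h := Nat.eq_of_beq_eq_true (g4_all (rho_lt hc) (pc_lt hc hi) (pc_lt hc hj))
  unfold ll sw sl at h
  rw [nsum_eq, nsum_eq, nsum_eq, nsum_eq] at h
  have h2 := congrArg (fun n : ℕ => (n : ℤ)) h
  simp only [Nat.add_eq, Nat.mul_eq] at h2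
  push_cast at h2
  rw [expand (range 24) (fun k => w4 (rho c) k) (fun k => l4 (rho c) (pc c i) k)
    (fun k => l4 (rho c) (pc c j) k) 65536]
  have h3 : (q4 c i j : ℤ) = (tq (rho c) (pc c i) (pc c j) : ℤ) := rfl
  rw [h3]
  linarith

theorem hq2 (i j : ℕ) (hi : i < 16) (hj : j < 16) : (q2 i j : ℤ) =
    ∑ k ∈ range 2, (w2 k : ℤ) * ((l2 i k : ℤ) - 65536) * ((l2 j k : ℤ) - 65536)
      + (17179869184 + ((rP cF 1000 i j : ℤ) - (rM cF 467 i j : ℤ))) := by
  have h := Nat.eq_of_beq_eq_true (nall_true (nall_true cpb i hi) j hj)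
  unfold ll2 sw2 sl2 at h
  rw [nsum_eq, nsum_eq, nsum_eq, nsum_eq] at h
  have h2 := congrArg (fun n : ℕ => (n : ℤ)) h
  simp only [Nat.add_eq, Nat.mul_eq] at h2
  push_cast at h2
  rw [expand (range 2) (fun k => w2 k) (fun k => l2 i k) (fun k => l2 j k) 65536]
  linarith

theorem g3_chk : (nall 2 fun s => nall 2 fun t => Nat.beq (Nat.add (g3 s t) (Nat.mul (zF s) (Nat.mul 1000 t)))
    (Nat.add 875208919 (Nat.mul (zF s) 467))) = true := by decide +kernel

theorem hg (s t : ℕ) (hs : s < 2) (ht : t < 2) :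
    (g3 s t : ℤ) = (875208919 : ℕ) + zF s * (((467 : ℕ) : ℤ) - (1000 : ℕ) * t) := by
  have h := Nat.eq_of_beq_eq_true (nall_true (nall_true g3_chk s hs) t ht)
  have h2 := congrArg (fun n : ℕ => (n : ℤ)) h
  simp only [Nat.add_eq, Nat.mul_eq] at h2
  push_cast at h2 ⊢
  linarith

theorem main {V : Type} [Fintype V] (E : V → V → V → ℕ) (hE : Cls c5b E) :
    1000 * TT E ≤ 467 * Fintype.card V ^ 3 := by
  refine upper c5b zF cF 1000 467 875208919 4194304 CST 17179869184 17179869184 g3 (by norm_num) hg (by decide +kernel)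
    (by decide +kernel) (fun i => (Nat.mod_lt _ (by norm_num)).le) (by unfold CST; norm_num) ?_ E hE
  intro V _ E hE
  exact boundG E hE.1 24 2 CST q4 (fun c k => w4 (rho c) k) (fun c i k => l4 (rho c) (pc c i) k)
    q2 w2 l2 65536 17179869184 17179869184 cF 1000 467 g3 875208919 hq4 hq2
    (leafG_all hE.1 (by decide +kernel) hE.2 cs4 cs2 hc)

end Pool.Agent.H37R3.CA
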