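import Pool.Agent.H37R3.Pen
import Pool.Agent.H37R3.K5.Walk

/-! Six-vertex flags with an additional term for pairs of triples all of whose nine mixed triples
with two vertices in the first one are present. -/

set_option autoImplicit false
set_option maxRecDepth 100000
set_option maxHeartbeats 4000000
open Finset

namespace Pool.Agent.H37R3.Lag
open Pool.Agent.H122R2.N6 Pool.Agent.H37R3.Pen Pool.Agent.H37R3.K5

def y3 (g3 : ℕ → ℕ → ℕ) (G0 s t n : ℕ) : ℕ := cond (Nat.beq n 9) (g3 s t) G0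

def leaf3 (g3 : ℕ → ℕ → ℕ) (G0 : ℕ) (b012 b013 b023 b123 b014 b024 b124 b034 b134 b234 b015 b025 b125 b035 b135 b235 b045 b145 b245 b345 : ℕ) : ℕ :=
  (Nat.add (y3 g3 G0 b012 b345 (Nat.add b013 (Nat.add b023 (Nat.add b123 (Nat.add b014 (Nat.add b024 (Nat.add b124 (Nat.add b015 (Nat.add b025 b125))))))))) (Nat.add (y3 g3 G0 b013 b245 (Nat.add b012 (Nat.add b023 (Nat.add b123 (Nat.add b014 (Nat.add b034 (Nat.add b134 (Nat.add b015 (Nat.add b035 b135))))))))) (Nat.add (y3 g3 G0 b014 b235 (Nat.add b012 (Nat.add b024 (Nat.add b124 (Nat.add b013 (Nat.add b034 (Nat.add b134 (Nat.add b015 (Nat.add b045 b145))))))))) (Nat.add (y3 g3 G0 b015 b234 (Nat.add b012 (Nat.add b025 (Nat.add b125 (Nat.add b013 (Nat.add b035 (Nat.add b135 (Nat.add b014 (Nat.add b045 b145))))))))) (Nat.add (y3 g3 G0 b023 b145 (Nat.add b012 (Nat.add b013 (Nat.add b123 (Nat.add b024 (Nat.add b034 (Nat.add b234 (Nat.add b025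 (Nat.add b035 b235))))))))) (Nat.add (y3 g3 G0 b024 b135 (Nat.add b012 (Nat.add b014 (Nat.add b124 (Nat.add b023 (Nat.add b034 (Nat.add b234 (Nat.add b025 (Nat.add b045 b245))))))))) (Nat.add (y3 g3 G0 b025 b134 (Nat.add b012 (Nat.add b015 (Nat.add b125 (Nat.add b023 (Nat.add b035 (Nat.add b235 (Nat.add b024 (Nat.add b045 b245))))))))) (Nat.add (y3 g3 G0 b034 b125 (Nat.add b013 (Nat.add b014 (Nat.add b134 (Nat.add b023 (Nat.add b024 (Nat.add b234 (Nat.add b035 (Nat.add b045 b345))))))))) (Nat.add (y3 g3 G0 b035 b124 (Nat.add b013 (Nat.add b015 (Nat.add b135 (Nat.add b023 (Nat.add b025 (Nat.add b235 (Nat.add b034 (Nat.add b045 b345))))))))) (Nat.add (y3 g3 G0 b045 b123 (Nat.add b014 (Nat.add b015 (Nat.add b145 (Nat.add b024 (Nat.add b025 (Nat.add b245 (Nat.add b034 (Nat.add b035 b345))))))))) (Nat.add (y3 g3 G0 b123 b045 (Nat.add b012 (Nat.add b013 (Nat.add b023 (Nat.add b124 (Nat.add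 b134 (Nat.add b234 (Nat.add b125 (Nat.add b135 b235))))))))) (Nat.add (y3 g3 G0 b124 b035 (Nat.add b012 (Nat.add b014 (Nat.add b024 (Nat.add b123 (Nat.add b134 (Nat.add b234 (Nat.add b125 (Nat.add b145 b245))))))))) (Nat.add (y3 g3 G0 b125 b034 (Nat.add b012 (Nat.add b015 (Nat.add b025 (Nat.add b123 (Nat.add b135 (Nat.add b235 (Nat.add b124 (Nat.add b145 b245))))))))) (Nat.add (y3 g3 G0 b134 b025 (Nat.add b013 (Nat.add b014 (Nat.add b034 (Nat.add b123 (Nat.add b124 (Nat.add b234 (Nat.add b135 (Nat.add b145 b345))))))))) (Nat.add (y3 g3 G0 b135 b024 (Nat.add b013 (Nat.add b015 (Nat.add b035 (Nat.add b123 (Nat.add b125 (Nat.add b235 (Nat.add b134 (Nat.add b145 b345))))))))) (Nat.add (y3 g3 G0 b145 b023 (Nat.add b014 (Nat.add b015 (Nat.add b045 (Nat.add b124 (Nat.add b125 (Nat.add b245 (Nat.add b134 (Nat.add b135 b345))))))))) (Nat.add (y3 g3 G0 b234 b015 (Nat.add b023 (Nat.add b024 (Nat.add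 b034 (Nat.add b123 (Nat.add b124 (Nat.add b134 (Nat.add b235 (Nat.add b245 b345))))))))) (Nat.add (y3 g3 G0 b235 b014 (Nat.add b023 (Nat.add b025 (Nat.add b035 (Nat.add b123 (Nat.add b125 (Nat.add b135 (Nat.add b234 (Nat.add b245 b345))))))))) (Nat.add (y3 g3 G0 b245 b013 (Nat.add b024 (Nat.add b025 (Nat.add b045 (Nat.add b124 (Nat.add b125 (Nat.add b145 (Nat.add b234 (Nat.add b235 b345))))))))) (y3 g3 G0 b345 b012 (Nat.add b034 (Nat.add b035 (Nat.add b045 (Nat.add b134 (Nat.add b135 (Nat.add b145 (Nat.add b234 (Nat.add b235 b245))))))))))))))))))))))))))))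

/-- the leaf inequality; `kb` recognises the forbidden structures on five vertices -/
def chkG (kb : ℕ → ℕ → ℕ → ℕ → ℕ → ℕ → ℕ → ℕ → ℕ → ℕ → Bool) (q4 : ℕ → ℕ → ℕ → ℕ) (q2 : ℕ → ℕ → ℕ) (g3 : ℕ → ℕ → ℕ) (G0 C : ℕ) (b012 b013 b023 b123 b014 b024 b124 b034 b134 b234 : ℕ) : Bool :=
  or (kb b012 b013 b023 b123 b014 b024 b124 b034 b134 b234) (B2 fun b015 => B2 fun b025 => B2 fun b125 => B2 fun b035 => B2 fun b135 => B2 fun b235 => or (kb b012 b013 b023 b123 b015 b025 b125 b035 b135 b235) (B2 fun b045 => B2 fun b145 => B2 fun b245 => or (kb b012 b014 b024 b124 b015 b025 b125 b045 b145 b245) (B2 fun b345 => or (kb b013 b014 b034 b134 b015 b035 b135 b045 b145 b345) (or (kb b023 b024 b034 b234 b025 b035 b235 b045 b245 b345) (or (kb b123 b124 b134 b234 b125 b135 b235 b145 b245 b345) (Nat.ble (Nat.add (leaf4 q4 b012 b013 b023 b123 b014 b024 b124 b034 b134 b234 b015 b025 b125 b035 b135 b235 b045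 b145 b245 b345) (Nat.add (leaf2 q2 b012 b013 b023 b123 b014 b024 b124 b034 b134 b234 b015 b025 b125 b035 b135 b235 b045 b145 b245 b345) (leaf3 g3 G0 b012 b013 b023 b123 b014 b024 b124 b034 b134 b234 b015 b025 b125 b035 b135 b235 b045 b145 b245 b345))) C))))))

section
variable {V : Type} (E : V → V → V → ℕ)

def F3 (g3 : ℕ → ℕ → ℕ) (G0 : ℕ) (a b c d e f : V) : ℕ :=
  y3 g3 G0 (E a b c) (E d e f) (Nat.add (E a b d) (Nat.add (E a c d) (Nat.add (E b c d) (Nat.add (E a b e) (Nat.add (E a c e) (Nat.add (E b c e) (Nat.add (E a b f) (Nat.add (E a c f) (E b c f)))))))))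

def L3 (g3 : ℕ → ℕ → ℕ) (G0 : ℕ) (a b c d e f : V) : ℕ :=
  (F3 E g3 G0 a b c d e f +
    (F3 E g3 G0 a b d c e f +
    (F3 E g3 G0 a b e c d f +
    (F3 E g3 G0 a b f c d e +
    (F3 E g3 G0 a c d b e f +
    (F3 E g3 G0 a c e b d f +
    (F3 E g3 G0 a c f b d e +
    (F3 E g3 G0 a d e b c f +
    (F3 E g3 G0 a d f b c e +
    (F3 E g3 G0 a e f b c d +
    (F3 E g3 G0 b c d a e f +
    (F3 E g3 G0 b c e a d f +
    (F3 E g3 G0 b c f a d e +
    (F3 E g3 G0 b d e a c f +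
    (F3 E g3 G0 b d f a c e +
    (F3 E g3 G0 b e f a c d +
    (F3 E g3 G0 c d e a b f +
    (F3 E g3 G0 c d f a b e +
    (F3 E g3 G0 c e f a b d +
    F3 E g3 G0 d e f a b c)))))))))))))))))))

def K3l (g3 : ℕ → ℕ → ℕ) (G0 : ℕ) (a b c d e f : V) : ℕ :=
  leaf3 g3 G0 (E a b c) (E a b d) (E a c d) (E b c d) (E a b e) (E a c e) (E b c e) (E a d e) (E b d e) (E c d e) (E a b f) (E a c f) (E b c f) (E a d f) (E b d f) (E c d f) (E a e f) (E b e f) (E c e f) (E d e f)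

theorem K3l_eq (g3 : ℕ → ℕ → ℕ) (G0 : ℕ) (h132 : ∀ x y z, E x z y = E x y z)
    (h231 : ∀ x y z, E y z x = E x y z) (h213 : ∀ x y z, E y x z = E x y z)
    (h312 : ∀ x y z, E z x y = E x y z) (a b c d e f : V) :
    K3l E g3 G0 a b c d e f = L3 E g3 G0 a b c d e f := by
  unfold K3l L3 leaf3 F3
  simp only [Nat.add_eq, h132 a b c, h231 a b c, h213 a b c, h312 a b c, h132 a b d, h231 a b d, h213 a b d, h312 a b d, h132 a b e, h231 a b e, h213 a b e, h312 a b e, h132 a b f, h231 a b f, h213 a b f, h312 a b f, h132 a c d, h231 a c d, h213 a c d, h312 a c d, h132 a c e, h231 a c e, h213 a c e, h312 a c e, h132 a c f, h231 a c f, h213 a c f, h312 a c f, h132 a d e, h231 a d e, h213 a d e, h312 a d e, h132 a d f, h231 a d f, h213 a d f, h312 a d f, h132 a e f, h231 a e f, h213 a e f, h312 a e f, h132 b c d, h231 b c d, h213 b c d, h312 b c d, h132 b c e, h231 b c e, h213 b c e, h312 b c e,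 h132 b c f, h231 b c f, h213 b c f, h312 b c f, h132 b d e, h231 b d e, h213 b d e, h312 b d e, h132 b d f, h231 b d f, h213 b d f, h312 b d f, h132 b e f, h231 b e f, h213 b e f, h312 b e f, h132 c d e, h231 c d e, h213 c d e, h312 c d e, h132 c d f, h231 c d f, h213 c d f, h312 c d f, h132 c e f, h231 c e f, h213 c e f, h312 c e f, h132 d e f, h231 d e f, h213 d e f, h312 d e f]
end

section
variable {V : Type} {E : V → V → V → ℕ}

theorem y3_congr (g3 : ℕ → ℕ → ℕ) (G0 : ℕ) {s s' t t' n n' : ℕ} (hs : s = s') (ht : t = t')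
    (hn : n = n') : y3 g3 G0 s t n = y3 g3 G0 s' t' n' := by rw [hs, ht, hn]

theorem F3_s1 (hE : Sy E) (g3 : ℕ → ℕ → ℕ) (G0 : ℕ) (a b c d e f : V) :
    F3 E g3 G0 b a c d e f = F3 E g3 G0 a b c d e f := by
  refine y3_congr g3 G0 (hE.h213 a b c) rfl ?_
  rw [hE.h213 a b d, hE.h213 a b e, hE.h213 a b f]
  simp only [Nat.add_eq]
  omega

theorem F3_s2 (hE : Sy E) (g3 : ℕ → ℕ → ℕ) (G0 : ℕ) (a b c d e f : V) :
    F3 E g3 G0 a c b d e f = F3 E g3 G0 a b c d e f := by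
  refine y3_congr g3 G0 (hE.h132 a b c) rfl ?_
  rw [hE.h213 b c d, hE.h213 b c e, hE.h213 b c f]
  simp only [Nat.add_eq]
  omega

theorem F3_t1 (hE : Sy E) (g3 : ℕ → ℕ → ℕ) (G0 : ℕ) (a b c d e f : V) :
    F3 E g3 G0 a b c e d f = F3 E g3 G0 a b c d e f := by
  refine y3_congr g3 G0 rfl (hE.h213 d e f) ?_
  simp only [Nat.add_eq]
  omega

theorem F3_t2 (hE : Sy E) (g3 : ℕ → ℕ → ℕ) (G0 : ℕ) (a b c d e f : V) :
    F3 E g3 G0 a b c d f e = F3 E g3 G0 a b c d e f := by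
  refine y3_congr g3 G0 rfl (hE.h132 d e f) ?_
  simp only [Nat.add_eq]
  omega

theorem L3_sw0 (hE : Sy E) (g3 : ℕ → ℕ → ℕ) (G0 : ℕ) (a b c d e f : V) :
    L3 E g3 G0 b a c d e f = L3 E g3 G0 a b c d e f := by
  unfold L3
  rw [F3_s1 hE g3 G0 a b c d e f, F3_s1 hE g3 G0 a b d c e f, F3_s1 hE g3 G0 a b e c d f, F3_s1 hE g3 G0 a b f c d e, F3_t1 hE g3 G0 c d e a b f, F3_t1 hE g3 G0 c d f a b e, F3_t1 hE g3 G0 c e f a b d, F3_t1 hE g3 G0 d e f a b c]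
  ring

theorem L3_sw1 (hE : Sy E) (g3 : ℕ → ℕ → ℕ) (G0 : ℕ) (a b c d e f : V) :
    L3 E g3 G0 a c b d e f = L3 E g3 G0 a b c d e f := by
  unfold L3
  rw [F3_s2 hE g3 G0 a b c d e f, F3_t1 hE g3 G0 a d e b c f, F3_t1 hE g3 G0 a d f b c e, F3_t1 hE g3 G0 a e f b c d, F3_s1 hE g3 G0 b c d a e f, F3_s1 hE g3 G0 b c e a d f, F3_s1 hE g3 G0 b c f a d e, F3_t2 hE g3 G0 d e f a b c]
  ring

theorem L3_sw2 (hE : Sy E) (g3 : ℕ → ℕ → ℕ) (G0 : ℕ) (a b c d e f : V) :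
    L3 E g3 G0 a b d c e f = L3 E g3 G0 a b c d e f := by
  unfold L3
  rw [F3_t1 hE g3 G0 a b e c d f, F3_t1 hE g3 G0 a b f c d e, F3_s2 hE g3 G0 a c d b e f, F3_t2 hE g3 G0 a e f b c d, F3_s2 hE g3 G0 b c d a e f, F3_t2 hE g3 G0 b e f a c d, F3_s1 hE g3 G0 c d e a b f, F3_s1 hE g3 G0 c d f a b e]
  ring

theorem L3_sw3 (hE : Sy E) (g3 : ℕ → ℕ → ℕ) (G0 : ℕ) (a b c d e f : V) :
    L3 E g3 G0 a b c e d f = L3 E g3 G0 a b c d e f := by
  unfold L3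
  rw [F3_t1 hE g3 G0 a b c d e f, F3_t2 hE g3 G0 a b f c d e, F3_t2 hE g3 G0 a c f b d e, F3_s2 hE g3 G0 a d e b c f, F3_t2 hE g3 G0 b c f a d e, F3_s2 hE g3 G0 b d e a c f, F3_s2 hE g3 G0 c d e a b f, F3_s1 hE g3 G0 d e f a b c]
  ring

end

section
variable {V : Type} [Fintype V] (E : V → V → V → ℕ)

theorem sumL3 (g3 : ℕ → ℕ → ℕ) (G0 : ℕ) :
    ∑ x : Fin 6 → V, (L3 E g3 G0 (x 0) (x 1) (x 2) (x 3) (x 4) (x 5) : ℤ)
      = 20 * ∑ x : Fin 6 → V, (F3 E g3 G0 (x 0) (x 1) (x 2) (x 3) (x 4) (x 5) : ℤ) := by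
  have f3 : ∀ i0 i1 i2 i3 i4 i5 : Fin 6, Function.Injective ![i0, i1, i2, i3, i4, i5] →
      ∑ x : Fin 6 → V, (F3 E g3 G0 (x i0) (x i1) (x i2) (x i3) (x i4) (x i5) : ℤ)
      = ∑ x : Fin 6 → V, (F3 E g3 G0 (x 0) (x 1) (x 2) (x 3) (x 4) (x 5) : ℤ) :=
    fun i0 i1 i2 i3 i4 i5 hg =>
      psum (fun a b c d e f => (F3 E g3 G0 a b c d e f : ℤ)) ![i0, i1, i2, i3, i4, i5]
        (Finite.injective_iff_bijective.mp hg)
  simp only [L3, Nat.cast_add, sum_add_distrib]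
  rw [f3 0 1 3 2 4 5 (by decide), f3 0 1 4 2 3 5 (by decide), f3 0 1 5 2 3 4 (by decide), f3 0 2 3 1 4 5 (by decide), f3 0 2 4 1 3 5 (by decide), f3 0 2 5 1 3 4 (by decide), f3 0 3 4 1 2 5 (by decide), f3 0 3 5 1 2 4 (by decide), f3 0 4 5 1 2 3 (by decide), f3 1 2 3 0 4 5 (by decide), f3 1 2 4 0 3 5 (by decide), f3 1 2 5 0 3 4 (by decide), f3 1 3 4 0 2 5 (by decide), f3 1 3 5 0 2 4 (by decide), f3 1 4 5 0 2 3 (by decide), f3 2 3 4 0 1 5 (by decide), f3 2 3 5 0 1 4 (by decide), f3 2 4 5 0 1 3 (by decide), f3 3 4 5 0 1 2 (by decide)]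
  ring

end
end Pool.Agent.H37R3.Lag
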