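import Pool.Agent.H37R3.Lag.CATab
import Pool.Agent.H37R3.Lag.Cub
import Pool.Agent.H37R3.Lag.C5

set_option autoImplicit false
set_option maxRecDepth 100000

namespace Pool.Agent.H37R3.CA

open Pool.Agent.H122R2.N6 Pool.Agent.H37R3.Pen Pool.Agent.H37R3.K5 Pool.Agent.H37R3.Lag

def part (b012 b013 : ℕ) : Bool := B2 fun b023 => B2 fun b123 => B2 fun b014 => B2 fun b024 => B2 fun b124 => B2 fun b034 => B2 fun b134 => B2 fun b234 => or (not (Nat.beq (tg5 b012 b013 b023 b123 b014 b024 b124 b034 b134 b234) 4)) (chkG c5b q4 q2 g3 875208919 CST b012 b013 b023 b123 b014 b024 b124 b034 b134 b234)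

end Pool.Agent.H37R3.CA
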