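import Pool.Agent.H37R3.Lag.Bound

/-! The degree terms and the term for pairs of triples for a structure of nearly maximum density. -/

set_option autoImplicit false
set_option maxRecDepth 100000
set_option maxHeartbeats 4000000
open Finset
open scoped Classical

namespace Pool.Agent.H37R3.Lag
open Pool.Agent.H122R2.N6 Pool.Agent.H37R3.Pen Pool.Agent.H37R3.K5

section
variable {V : Type} [Fintype V] (E : V → V → V → ℕ)

/-- the vertices completing all three pairs of a triple -/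
noncomputable def UU (a b c : V) : Finset V :=
  univ.filter fun u => E a b u = 1 ∧ E a c u = 1 ∧ E b c u = 1

theorem mem_UU (a b c u : V) : u ∈ UU E a b c ↔ E a b u = 1 ∧ E a c u = 1 ∧ E b c u = 1 := by
  unfold UU
  simp

/-- the number of ordered triples of a set of vertices -/
def TU (U : Finset V) : ℕ := ∑ d ∈ U, ∑ e ∈ U, ∑ f ∈ U, E d e f

theorem F3_val (hE : Sy E) (z : ℕ → ℕ) (D N G0 : ℕ) (g3 : ℕ → ℕ → ℕ)
    (hg : ∀ s t, s < 2 → t < 2 → (g3 s t : ℤ) = G0 + z s * ((N : ℤ) - D * t)) (a b c d e f : V) :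
    (F3 E g3 G0 a b c d e f : ℤ) = G0 + (z (E a b c) : ℤ) *
      (if d ∈ UU E a b c ∧ e ∈ UU E a b c ∧ f ∈ UU E a b c then (N : ℤ) - D * E d e f else 0) := by
  classical
  have hb : ∀ x y z : V, E x y z ≤ 1 := fun x y z => by
    rcases hE.b x y z with h | h <;> omega
  unfold F3 y3
  simp only [Nat.add_eq, mem_UU]
  have b1 := hb a b d; have b2 := hb a c d; have b3 := hb b c d
  have b4 := hb a b e; have b5 := hb a c e; have b6 := hb b c e
  have b7 := hb a b f; have b8 := hb a c f; have b9 := hb b c f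
  split_ifs with h
  · obtain ⟨⟨h1, h2, h3⟩, ⟨h4, h5, h6⟩, ⟨h7, h8, h9⟩⟩ := h
    rw [h1, h2, h3, h4, h5, h6, h7, h8, h9]
    have e9 : Nat.beq (1 + (1 + (1 + (1 + (1 + (1 + (1 + (1 + 1)))))))) 9 = true := rfl
    rw [e9, cond_true]
    exact hg _ _ (by have := hb a b c; omega) (by have := hb d e f; omega)
  · have hne : Nat.beq (E a b d + (E a c d + (E b c d + (E a b e + (E a c e + (E b c e + (E a b f + (E a c f + E b c f)))))))) 9 = false := by
      by_contra hcon
      rw [Bool.not_eq_false] at hcon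
      have h9 := Nat.eq_of_beq_eq_true hcon
      apply h
      refine ⟨⟨?_, ?_, ?_⟩, ⟨?_, ?_, ?_⟩, ⟨?_, ?_, ?_⟩⟩ <;> omega
    rw [hne, cond_false]
    simp

theorem sumF3 (hE : Sy E) (z : ℕ → ℕ) (D N G0 : ℕ) (g3 : ℕ → ℕ → ℕ)
    (hg : ∀ s t, s < 2 → t < 2 → (g3 s t : ℤ) = G0 + z s * ((N : ℤ) - D * t)) :
    ∑ x : Fin 6 → V, (F3 E g3 G0 (x 0) (x 1) (x 2) (x 3) (x 4) (x 5) : ℤ) =
      G0 * (Fintype.card V : ℤ) ^ 6 + ∑ a, ∑ b, ∑ c, (z (E a b c) : ℤ) *
        (N * ((UU E a b c).card : ℤ) ^ 3 - D * (TU E (UU E a b c) : ℤ)) := by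
  classical
  rw [conv6 (fun a b c d e f => (F3 E g3 G0 a b c d e f : ℤ))]
  have e1 : (G0 : ℤ) * (Fintype.card V : ℤ) ^ 6 = ∑ a : V, ∑ b : V, ∑ c : V, (G0 : ℤ) * (Fintype.card V : ℤ) ^ 3 := by
    simp only [sum_const, card_univ, nsmul_eq_mul]
    ring
  rw [e1]
  simp only [← sum_add_distrib]
  refine sum_congr rfl fun a _ => sum_congr rfl fun b _ => sum_congr rfl fun c _ => ?_
  set U := UU E a b c with hU
  have e2 : ∀ d e f : V, (F3 E g3 G0 a b c d e f : ℤ) = G0 + (z (E a b c) : ℤ) *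
      (if d ∈ U then (if e ∈ U then (if f ∈ U then (N : ℤ) - D * E d e f else 0) else 0) else 0) := by
    intro d e f
    rw [F3_val E hE z D N G0 g3 hg, ← hU]
    by_cases hd : d ∈ U <;> by_cases he : e ∈ U <;> by_cases hf : f ∈ U <;> simp [hd, he, hf]
  simp only [e2, sum_add_distrib, sum_const, card_univ, nsmul_eq_mul, ← mul_sum]
  have e3 : ∑ d, ∑ e, ∑ f, (if d ∈ U then (if e ∈ U then (if f ∈ U then (N : ℤ) - D * E d e f else 0) else 0) else 0)
      = N * (U.card : ℤ) ^ 3 - D * (TU E U : ℤ) := by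
    have s1 : ∀ d, ∑ e, ∑ f, (if d ∈ U then (if e ∈ U then (if f ∈ U then (N : ℤ) - D * E d e f else 0) else 0) else 0)
        = if d ∈ U then ∑ e ∈ U, ∑ f ∈ U, ((N : ℤ) - D * E d e f) else 0 := by
      intro d
      split_ifs
      · rw [← sum_filter_add_sum_filter_not univ (· ∈ U)]
        have z0 : ∑ e ∈ univ.filter (fun e => e ∉ U), ∑ f, (if e ∈ U then (if f ∈ U then (N : ℤ) - D * E d e f else 0) else 0) = 0 := by
          refine sum_eq_zero fun e he => ?_
          rw [mem_filter] at he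
          simp [he.2]
        rw [z0, add_zero, filter_mem_eq_inter, univ_inter]
        refine sum_congr rfl fun e he => ?_
        simp only [he, if_true]
        rw [← sum_filter, filter_mem_eq_inter, univ_inter]
      · simp
    simp only [s1]
    rw [← sum_filter, filter_mem_eq_inter, univ_inter]
    simp only [sum_sub_distrib, sum_const, nsmul_eq_mul, ← mul_sum]
    unfold TU
    push_cast
    ring
  rw [e3]
  ring

theorem sum_hh (c : ℕ → ℕ) (D N : ℕ) :
    ∑ x : Fin 6 → V, hh E c D N (x 0) (x 1) (x 2) (x 3) (x 4) (x 5) =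
      ∑ a, (∑ b, ∑ x, ∑ y, (cl E c a b x y : ℤ)) *
        ((D : ℤ) * (∑ e, ∑ f, (E a e f : ℤ)) - N * (Fintype.card V : ℤ) ^ 2) := by
  rw [conv6 (fun a b x y e f => hh E c D N a b x y e f)]
  refine sum_congr rfl fun a _ => ?_
  rw [sum_mul]
  refine sum_congr rfl fun b _ => ?_
  rw [sum_mul]
  refine sum_congr rfl fun x _ => ?_
  rw [sum_mul]
  refine sum_congr rfl fun y _ => ?_
  unfold hh
  simp only [← mul_sum, sum_sub_distrib, sum_const, card_univ, nsmul_eq_mul]
  ring

/-- the weight of the pairs of triples is dominated by the weight of the rooted quadruples -/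
theorem cubic_le (z c : ℕ → ℕ) (hb : ∀ x y z : V, E x y z ≤ 1)
    (h0 : z 0 ≤ 9 * c 5) (h1 : z 1 ≤ 9 * c 7) (a b x : V) :
    z (E a b x) * (UU E a b x).card ≤ 9 * ∑ y, cl E c a b x y := by
  have e1 : z (E a b x) * (UU E a b x).card = ∑ y ∈ UU E a b x, z (E a b x) := by
    rw [sum_const, smul_eq_mul, mul_comm]
  rw [e1, mul_sum]
  refine le_trans (sum_le_sum fun y hy => ?_)
    (sum_le_sum_of_subset (f := fun y => 9 * cl E c a b x y) (subset_univ (UU E a b x)))
  obtain ⟨h2, h3, h4⟩ := (mem_UU E a b x y).mp hy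
  unfold cl
  rw [h2, h3, h4]
  have h5 := hb a b x
  rcases Nat.lt_or_ge 0 (E a b x) with h6 | h6
  · have h7 : E a b x = 1 := by omega
    rw [h7]
    exact h1
  · have h7 : E a b x = 0 := by omega
    rw [h7]
    exact h0

end
end Pool.Agent.H37R3.Lag
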