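import Pool.Agent.H37R3.Lag.Gap

set_option autoImplicit false
set_option maxRecDepth 100000
set_option maxHeartbeats 4000000
open Finset
open scoped Classical

namespace Pool.Agent.H37R3.Lag
open Pool.Agent.H122R2.N6 Pool.Agent.H37R3.Pen Pool.Agent.H37R3.K5

section
variable {V : Type} [Fintype V] (E : V → V → V → ℕ)

theorem gap (hE : Sy E) (z c : ℕ → ℕ) (D N G0 M : ℕ) (g3 : ℕ → ℕ → ℕ)
    (hg : ∀ s t, s < 2 → t < 2 → (g3 s t : ℤ) = G0 + z s * ((N : ℤ) - D * t))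
    (h0 : z 0 ≤ 9 * c 5) (h1 : z 1 ≤ 9 * c 7) (hM : ∀ i, c i ≤ M) (p ε : ℝ) (hε : 0 ≤ ε)
    (hA : ∀ a : V, (p - ε) * (Fintype.card V : ℝ) ^ 2 ≤ ∑ e, ∑ f, (E a e f : ℝ))
    (hB : ∀ U : Finset V, (TU E U : ℝ) ≤ p * (U.card : ℝ) ^ 3)
    (hC : (N : ℝ) ≤ D * p) :
    20 * (G0 : ℝ) * (Fintype.card V : ℝ) ^ 6 - 180 * D * ε * M * (Fintype.card V : ℝ) ^ 6 ≤
      ((180 * ∑ x : Fin 6 → V, hh E c D N (x 0) (x 1) (x 2) (x 3) (x 4) (x 5)
      + 20 * ∑ x : Fin 6 → V, (F3 E g3 G0 (x 0) (x 1) (x 2) (x 3) (x 4) (x 5) : ℤ) : ℤ) : ℝ) := by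
  have hb : ∀ x y z : V, E x y z ≤ 1 := fun x y z => by
    rcases hE.b x y z with h | h <;> omega
  rw [sum_hh E c D N, sumF3 E hE z D N G0 g3 hg]
  push_cast
  set n : ℝ := (Fintype.card V : ℝ) with hn
  have hn0 : 0 ≤ n := by positivity
  set A : V → ℝ := fun a => ∑ b, ∑ x, ∑ y, (cl E c a b x y : ℝ) with hAdef
  have hA0 : ∀ a, 0 ≤ A a := fun a => by
    simp only [hAdef]
    positivity
  have hD0 : (0 : ℝ) ≤ D := by positivity
  have hDp : 0 ≤ (D : ℝ) * p - N := by linarith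
  -- degree terms
  have s1 : ((D * p - N) * n ^ 2 - D * ε * n ^ 2) * ∑ a, A a ≤
      ∑ a, A a * ((D : ℝ) * (∑ e, ∑ f, (E a e f : ℝ)) - N * n ^ 2) := by
    rw [mul_sum]
    refine sum_le_sum fun a _ => ?_
    rw [mul_comm]
    refine mul_le_mul_of_nonneg_left ?_ (hA0 a)
    have h := mul_le_mul_of_nonneg_left (hA a) hD0
    linarith
  -- triples
  have s2 : ∀ a b x : V, -((D * p - N) * ((z (E a b x) : ℝ) * ((UU E a b x).card : ℝ) ^ 3)) ≤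
      (z (E a b x) : ℝ) * (N * ((UU E a b x).card : ℝ) ^ 3 - D * (TU E (UU E a b x) : ℝ)) := by
    intro a b x
    have h := mul_le_mul_of_nonneg_left (hB (UU E a b x)) hD0
    have hz : (0 : ℝ) ≤ z (E a b x) := by positivity
    have h2 : -((D * p - N) * ((UU E a b x).card : ℝ) ^ 3) ≤
      N * ((UU E a b x).card : ℝ) ^ 3 - D * (TU E (UU E a b x) : ℝ) := by linarith
    calc _ = (z (E a b x) : ℝ) * (-((D * p - N) * ((UU E a b x).card : ℝ) ^ 3)) := by ring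
      _ ≤ _ := mul_le_mul_of_nonneg_left h2 hz
  have s3 : ∀ a b x : V, (z (E a b x) : ℝ) * ((UU E a b x).card : ℝ) ^ 3 ≤
      9 * n ^ 2 * ∑ y, (cl E c a b x y : ℝ) := by
    intro a b x
    have h := cubic_le E z c hb h0 h1 a b x
    have h' : (z (E a b x) : ℝ) * ((UU E a b x).card : ℝ) ≤ 9 * ∑ y, (cl E c a b x y : ℝ) := by
      exact_mod_cast h
    have hu : ((UU E a b x).card : ℝ) ≤ n := by
      rw [hn]
      exact_mod_cast card_le_univ _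
    have hu0 : (0 : ℝ) ≤ ((UU E a b x).card : ℝ) := by positivity
    have hu2 : ((UU E a b x).card : ℝ) ^ 2 ≤ n ^ 2 := by
      exact pow_le_pow_left₀ hu0 hu 2
    have hzu : (0 : ℝ) ≤ (z (E a b x) : ℝ) * ((UU E a b x).card : ℝ) := by positivity
    calc (z (E a b x) : ℝ) * ((UU E a b x).card : ℝ) ^ 3
        = ((z (E a b x) : ℝ) * ((UU E a b x).card : ℝ)) * ((UU E a b x).card : ℝ) ^ 2 := by ring
      _ ≤ ((z (E a b x) : ℝ) * ((UU E a b x).card : ℝ)) * n ^ 2 := mul_le_mul_of_nonneg_left hu2 hzu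
      _ ≤ (9 * ∑ y, (cl E c a b x y : ℝ)) * n ^ 2 := mul_le_mul_of_nonneg_right h' (by positivity)
      _ = _ := by ring
  have s4 : -((D * p - N) * (9 * n ^ 2 * ∑ a, A a)) ≤ ∑ a, ∑ b, ∑ x, (z (E a b x) : ℝ) *
      (N * ((UU E a b x).card : ℝ) ^ 3 - D * (TU E (UU E a b x) : ℝ)) := by
    have e : -((D * p - N) * (9 * n ^ 2 * ∑ a, A a)) =
        ∑ a, ∑ b, ∑ x, -((D * p - N) * (9 * n ^ 2 * ∑ y, (cl E c a b x y : ℝ))) := by
      simp only [hAdef, sum_neg_distrib, ← mul_sum]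
    rw [e]
    refine sum_le_sum fun a _ => sum_le_sum fun b _ => sum_le_sum fun x _ => ?_
    refine le_trans ?_ (s2 a b x)
    have := mul_le_mul_of_nonneg_left (s3 a b x) hDp
    linarith
  -- total weight
  have s5 : ∑ a, A a ≤ M * n ^ 4 := by
    have e : (M : ℝ) * n ^ 4 = ∑ a : V, ∑ b : V, ∑ x : V, ∑ y : V, (M : ℝ) := by
      simp only [sum_const, card_univ, nsmul_eq_mul]
      rw [hn]
      ring
    rw [e]
    refine sum_le_sum fun a _ => sum_le_sum fun b _ => sum_le_sum fun x _ => sum_le_sum fun y _ => ?_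
    unfold cl
    exact_mod_cast hM _
  have s6 : D * ε * n ^ 2 * ∑ a, A a ≤ D * ε * n ^ 2 * (M * n ^ 4) :=
    mul_le_mul_of_nonneg_left s5 (by positivity)
  have e1 : ∑ a, A a * ((D : ℝ) * (∑ e, ∑ f, (E a e f : ℝ)) - N * n ^ 2) =
      ∑ a, (∑ b, ∑ x, ∑ y, (cl E c a b x y : ℝ)) * ((D : ℝ) * (∑ e, ∑ f, (E a e f : ℝ)) - N * n ^ 2) := rfl
  rw [← e1]
  have e2 : D * ε * n ^ 2 * (M * n ^ 4) = D * ε * M * n ^ 6 := by ring
  rw [e2] at s6
  nlinarith [s1, s4, s6]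

end
end Pool.Agent.H37R3.Lag
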