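import Pool.Agent.H37R3.Lag.Cub

/-! The leaf inequality for all six-tuples. -/

set_option autoImplicit false
set_option maxRecDepth 100000
set_option maxHeartbeats 4000000
open Finset

namespace Pool.Agent.H37R3.Lag
open Pool.Agent.H122R2.N6 Pool.Agent.H37R3.Pen Pool.Agent.H37R3.K5

section
variable {V : Type} {E : V → V → V → ℕ}

/-- no five vertices carry a forbidden structure -/
def NoB {V : Type} (kb : ℕ → ℕ → ℕ → ℕ → ℕ → ℕ → ℕ → ℕ → ℕ → ℕ → Bool) (E : V → V → V → ℕ) : Prop := ∀ a b c d e, kb (E a b c) (E a b d) (E a c d) (E b c d) (E a b e) (E a c e) (E b c e) (E a d e) (E b d e) (E c d e) = false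

theorem chkG_sound (hE : Sy E) {kb : ℕ → ℕ → ℕ → ℕ → ℕ → ℕ → ℕ → ℕ → ℕ → ℕ → Bool} {q4 : ℕ → ℕ → ℕ → ℕ} {q2 : ℕ → ℕ → ℕ} {g3 : ℕ → ℕ → ℕ} {G0 C : ℕ} (hK : NoB kb E) (a b c d e f : V)
    (h : chkG kb q4 q2 g3 G0 C (E a b c) (E a b d) (E a c d) (E b c d) (E a b e) (E a c e) (E b c e) (E a d e) (E b d e) (E c d e) = true) :
    K4l E q4 a b c d e f + (K2l E q2 a b c d e f + K3l E g3 G0 a b c d e f) ≤ C := by
  have h1 := (or_false_left (or_false_left (or_false_left (B2_true (or_false_left (B2_true (B2_true (B2_true (or_false_left (B2_true (B2_true (B2_true (B2_true (B2_true (B2_true (or_false_left h (hK a b c d e)) (hE.b a b f)) (hE.b a c f)) (hE.b b c f)) (hE.b a d f)) (hE.b b d f)) (hE.b c d f)) (hK a b c d f)) (hE.b a e f)) (hE.b b e f)) (hE.b c e f)) (hK a b c e f)) (hE.b d e f)) (hK a b d e f)) (hK a c d e f)) (hK b c d e f))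
  exact Nat.le_of_ble_eq_true h1

def GoodG (E : V → V → V → ℕ) (q4 : ℕ → ℕ → ℕ → ℕ) (q2 : ℕ → ℕ → ℕ) (g3 : ℕ → ℕ → ℕ) (G0 C : ℕ) (b012 b013 b023 b123 b014 b024 b124 b034 b134 b234 : ℕ) : Prop :=
  ∀ a b c d e f : V, E a b c = b012 → E a b d = b013 → E a c d = b023 → E b c d = b123 → E a b e = b014 → E a c e = b024 → E b c e = b124 → E a d e = b034 → E b d e = b134 → E c d e = b234 →
    L4 E q4 a b c d e f + (L2 E q2 a b c d e f + L3 E g3 G0 a b c d e f) ≤ C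

theorem rep_goodG (hE : Sy E) {kb : ℕ → ℕ → ℕ → ℕ → ℕ → ℕ → ℕ → ℕ → ℕ → ℕ → Bool} {q4 : ℕ → ℕ → ℕ → ℕ} {q2 : ℕ → ℕ → ℕ} {g3 : ℕ → ℕ → ℕ} {G0 C : ℕ} (hK : NoB kb E)
    (hc : ∀ b012 b013 b023 b123 b014 b024 b124 b034 b134 b234 : ℕ, Bt b012 → Bt b013 → Bt b023 → Bt b123 → Bt b014 → Bt b024 → Bt b124 → Bt b034 → Bt b134 → Bt b234 → tg5 b012 b013 b023 b123 b014 b024 b124 b034 b134 b234 = 4 → chkG kb q4 q2 g3 G0 C b012 b013 b023 b123 b014 b024 b124 b034 b134 b234 = true)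
    (b012 b013 b023 b123 b014 b024 b124 b034 b134 b234 : ℕ) (ht : tg5 b012 b013 b023 b123 b014 b024 b124 b034 b134 b234 = 4) : GoodG E q4 q2 g3 G0 C b012 b013 b023 b123 b014 b024 b124 b034 b134 b234 := by
  intro a b c d e f h0 h1 h2 h3 h4 h5 h6 h7 h8 h9
  subst h0 h1 h2 h3 h4 h5 h6 h7 h8 h9
  have h := hc _ _ _ _ _ _ _ _ _ _ (hE.b _ _ _) (hE.b _ _ _) (hE.b _ _ _) (hE.b _ _ _) (hE.b _ _ _) (hE.b _ _ _) (hE.b _ _ _) (hE.b _ _ _) (hE.b _ _ _) (hE.b _ _ _) ht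
  have h2 := chkG_sound hE hK a b c d e f h
  rwa [K4l_eq E q4 hE.h132 hE.h231 hE.h213 hE.h312, K2l_eq E q2 hE.h132 hE.h231 hE.h213 hE.h312, K3l_eq E g3 G0 hE.h132 hE.h231 hE.h213 hE.h312] at h2

theorem goodG_sw0 (hE : Sy E) {q4 : ℕ → ℕ → ℕ → ℕ} {q2 : ℕ → ℕ → ℕ} {g3 : ℕ → ℕ → ℕ} {G0 C : ℕ}
    (hs4 : sym4 q4 = true) (hs2 : sym2 q2 = true) (b012 b013 b023 b123 b014 b024 b124 b034 b134 b234 : ℕ)
    (h : GoodG E q4 q2 g3 G0 C b012 b013 b123 b023 b014 b124 b024 b134 b034 b234) : GoodG E q4 q2 g3 G0 C b012 b013 b023 b123 b014 b024 b124 b034 b134 b234 := by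
  intro a b c d e f h0 h1 h2 h3 h4 h5 h6 h7 h8 h9
  have h' := h b a c d e f ((hE.h213 _ _ _).trans h0) ((hE.h213 _ _ _).trans h1) h3 h2 ((hE.h213 _ _ _).trans h4) h6 h5 h8 h7 h9
  rwa [L4_sw0 hE hs4, L2_sw0 hE hs2, L3_sw0 hE] at h'

theorem goodG_sw1 (hE : Sy E) {q4 : ℕ → ℕ → ℕ → ℕ} {q2 : ℕ → ℕ → ℕ} {g3 : ℕ → ℕ → ℕ} {G0 C : ℕ}
    (hs4 : sym4 q4 = true) (hs2 : sym2 q2 = true) (b012 b013 b023 b123 b014 b024 b124 b034 b134 b234 : ℕ)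
    (h : GoodG E q4 q2 g3 G0 C b012 b023 b013 b123 b024 b014 b124 b034 b234 b134) : GoodG E q4 q2 g3 G0 C b012 b013 b023 b123 b014 b024 b124 b034 b134 b234 := by
  intro a b c d e f h0 h1 h2 h3 h4 h5 h6 h7 h8 h9
  have h' := h a c b d e f ((hE.h132 _ _ _).trans h0) h2 h1 ((hE.h213 _ _ _).trans h3) h5 h4 ((hE.h213 _ _ _).trans h6) h7 h9 h8
  rwa [L4_sw1 hE hs4, L2_sw1 hE hs2, L3_sw1 hE] at h'

theorem goodG_sw2 (hE : Sy E) {q4 : ℕ → ℕ → ℕ → ℕ} {q2 : ℕ → ℕ → ℕ} {g3 : ℕ → ℕ → ℕ} {G0 C : ℕ}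
    (hs4 : sym4 q4 = true) (hs2 : sym2 q2 = true) (b012 b013 b023 b123 b014 b024 b124 b034 b134 b234 : ℕ)
    (h : GoodG E q4 q2 g3 G0 C b013 b012 b023 b123 b014 b034 b134 b024 b124 b234) : GoodG E q4 q2 g3 G0 C b012 b013 b023 b123 b014 b024 b124 b034 b134 b234 := by
  intro a b c d e f h0 h1 h2 h3 h4 h5 h6 h7 h8 h9
  have h' := h a b d c e f h1 h0 ((hE.h132 _ _ _).trans h2) ((hE.h132 _ _ _).trans h3) h4 h7 h8 h5 h6 ((hE.h213 _ _ _).trans h9)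
  rwa [L4_sw2 hE hs4, L2_sw2 hE hs2, L3_sw2 hE] at h'

theorem goodG_sw3 (hE : Sy E) {q4 : ℕ → ℕ → ℕ → ℕ} {q2 : ℕ → ℕ → ℕ} {g3 : ℕ → ℕ → ℕ} {G0 C : ℕ}
    (hs4 : sym4 q4 = true) (hs2 : sym2 q2 = true) (b012 b013 b023 b123 b014 b024 b124 b034 b134 b234 : ℕ)
    (h : GoodG E q4 q2 g3 G0 C b012 b014 b024 b124 b013 b023 b123 b034 b134 b234) : GoodG E q4 q2 g3 G0 C b012 b013 b023 b123 b014 b024 b124 b034 b134 b234 := by
  intro a b c d e f h0 h1 h2 h3 h4 h5 h6 h7 h8 h9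
  have h' := h a b c e d f h0 h4 h5 h6 h1 h2 h3 ((hE.h132 _ _ _).trans h7) ((hE.h132 _ _ _).trans h8) ((hE.h132 _ _ _).trans h9)
  rwa [L4_sw3 hE hs4, L2_sw3 hE hs2, L3_sw3 hE] at h'

theorem walk_goodG (hE : Sy E) {q4 : ℕ → ℕ → ℕ → ℕ} {q2 : ℕ → ℕ → ℕ} {g3 : ℕ → ℕ → ℕ} {G0 C : ℕ}
    (hs4 : sym4 q4 = true) (hs2 : sym2 q2 = true)
    (hr : ∀ b012 b013 b023 b123 b014 b024 b124 b034 b134 b234 : ℕ, tg5 b012 b013 b023 b123 b014 b024 b124 b034 b134 b234 = 4 → GoodG E q4 q2 g3 G0 C b012 b013 b023 b123 b014 b024 b124 b034 b134 b234) (n : ℕ) :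
    ∀ b012 b013 b023 b123 b014 b024 b124 b034 b134 b234 : ℕ, walk5 n b012 b013 b023 b123 b014 b024 b124 b034 b134 b234 = true → GoodG E q4 q2 g3 G0 C b012 b013 b023 b123 b014 b024 b124 b034 b134 b234 := by
  induction n with
  | zero =>
    intro b012 b013 b023 b123 b014 b024 b124 b034 b134 b234 h
    exact hr _ _ _ _ _ _ _ _ _ _ (Nat.eq_of_beq_eq_true h)
  | succ n ih =>
    intro b012 b013 b023 b123 b014 b024 b124 b034 b134 b234 h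
    change (cond (Nat.beq (tg5 b012 b013 b023 b123 b014 b024 b124 b034 b134 b234) 4) true
      (cond (Nat.beq (tg5 b012 b013 b023 b123 b014 b024 b124 b034 b134 b234) 0) (walk5 n b012 b013 b123 b023 b014 b124 b024 b134 b034 b234)
      (cond (Nat.beq (tg5 b012 b013 b023 b123 b014 b024 b124 b034 b134 b234) 1) (walk5 n b012 b023 b013 b123 b024 b014 b124 b034 b234 b134)
      (cond (Nat.beq (tg5 b012 b013 b023 b123 b014 b024 b124 b034 b134 b234) 2) (walk5 n b013 b012 b023 b123 b014 b034 b134 b024 b124 b234)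
      (cond (Nat.beq (tg5 b012 b013 b023 b123 b014 b024 b124 b034 b134 b234) 3) (walk5 n b012 b014 b024 b124 b013 b023 b123 b034 b134 b234) false))))) = true at h
    cases h4 : Nat.beq (tg5 b012 b013 b023 b123 b014 b024 b124 b034 b134 b234) 4 with
    | true => exact hr _ _ _ _ _ _ _ _ _ _ (Nat.eq_of_beq_eq_true h4)
    | false =>
    rw [h4] at h
    cases h0 : Nat.beq (tg5 b012 b013 b023 b123 b014 b024 b124 b034 b134 b234) 0 with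
    | true => rw [h0] at h; exact goodG_sw0 hE hs4 hs2 _ _ _ _ _ _ _ _ _ _ (ih _ _ _ _ _ _ _ _ _ _ h)
    | false =>
    rw [h0] at h
    cases h1 : Nat.beq (tg5 b012 b013 b023 b123 b014 b024 b124 b034 b134 b234) 1 with
    | true => rw [h1] at h; exact goodG_sw1 hE hs4 hs2 _ _ _ _ _ _ _ _ _ _ (ih _ _ _ _ _ _ _ _ _ _ h)
    | false =>
    rw [h1] at h
    cases h2 : Nat.beq (tg5 b012 b013 b023 b123 b014 b024 b124 b034 b134 b234) 2 with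
    | true => rw [h2] at h; exact goodG_sw2 hE hs4 hs2 _ _ _ _ _ _ _ _ _ _ (ih _ _ _ _ _ _ _ _ _ _ h)
    | false =>
    rw [h2] at h
    cases h3 : Nat.beq (tg5 b012 b013 b023 b123 b014 b024 b124 b034 b134 b234) 3 with
    | true => rw [h3] at h; exact goodG_sw3 hE hs4 hs2 _ _ _ _ _ _ _ _ _ _ (ih _ _ _ _ _ _ _ _ _ _ h)
    | false => rw [h3] at h; simp at h

theorem noK5_of {kb : ℕ → ℕ → ℕ → ℕ → ℕ → ℕ → ℕ → ℕ → ℕ → ℕ → Bool} (h1 : kb 1 1 1 1 1 1 1 1 1 1 = true)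
    {b012 b013 b023 b123 b014 b024 b124 b034 b134 b234 : ℕ} (hb012 : Bt b012) (hb013 : Bt b013) (hb023 : Bt b023) (hb123 : Bt b123) (hb014 : Bt b014) (hb024 : Bt b024) (hb124 : Bt b124) (hb034 : Bt b034) (hb134 : Bt b134) (hb234 : Bt b234) (h : kb b012 b013 b023 b123 b014 b024 b124 b034 b134 b234 = false) : k5b b012 b013 b023 b123 b014 b024 b124 b034 b134 b234 = false := by
  by_contra hcon
  rw [Bool.not_eq_false] at hcon
  have h4 := Nat.eq_of_beq_eq_true hcon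
  simp only [Nat.add_eq] at h4
  have e : b012 = 1 ∧ b013 = 1 ∧ b023 = 1 ∧ b123 = 1 ∧ b014 = 1 ∧ b024 = 1 ∧ b124 = 1 ∧ b034 = 1 ∧ b134 = 1 ∧ b234 = 1 := by
    unfold Bt at *
    omega
  obtain ⟨e0, e1, e2, e3, e4, e5, e6, e7, e8, e9⟩ := e
  rw [e0, e1, e2, e3, e4, e5, e6, e7, e8, e9, h1] at h
  exact absurd h (by decide)

theorem leafG_all (hE : Sy E) {kb : ℕ → ℕ → ℕ → ℕ → ℕ → ℕ → ℕ → ℕ → ℕ → ℕ → Bool} {q4 : ℕ → ℕ → ℕ → ℕ} {q2 : ℕ → ℕ → ℕ} {g3 : ℕ → ℕ → ℕ} {G0 C : ℕ} (hone : kb 1 1 1 1 1 1 1 1 1 1 = true) (hK : NoB kb E)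
    (hs4 : sym4 q4 = true) (hs2 : sym2 q2 = true)
    (hc : ∀ b012 b013 b023 b123 b014 b024 b124 b034 b134 b234 : ℕ, Bt b012 → Bt b013 → Bt b023 → Bt b123 → Bt b014 → Bt b024 → Bt b124 → Bt b034 → Bt b134 → Bt b234 → tg5 b012 b013 b023 b123 b014 b024 b124 b034 b134 b234 = 4 → chkG kb q4 q2 g3 G0 C b012 b013 b023 b123 b014 b024 b124 b034 b134 b234 = true)
    (a b c d e f : V) : L4 E q4 a b c d e f + (L2 E q2 a b c d e f + L3 E g3 G0 a b c d e f) ≤ C := by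
  have h := (B2_true (B2_true (B2_true (B2_true (B2_true (B2_true (B2_true (B2_true (B2_true (B2_true walk5_all (hE.b a b c)) (hE.b a b d)) (hE.b a c d)) (hE.b b c d)) (hE.b a b e)) (hE.b a c e)) (hE.b b c e)) (hE.b a d e)) (hE.b b d e)) (hE.b c d e))
  have hw := or_false_left h (noK5_of hone (hE.b _ _ _) (hE.b _ _ _) (hE.b _ _ _) (hE.b _ _ _) (hE.b _ _ _) (hE.b _ _ _) (hE.b _ _ _) (hE.b _ _ _) (hE.b _ _ _) (hE.b _ _ _) (hK a b c d e))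
  exact walk_goodG hE hs4 hs2 (fun b012 b013 b023 b123 b014 b024 b124 b034 b134 b234 h4 => rep_goodG hE hK hc b012 b013 b023 b123 b014 b024 b124 b034 b134 b234 h4) _ _ _ _ _ _ _ _ _ _ _ hw
    a b c d e f rfl rfl rfl rfl rfl rfl rfl rfl rfl rfl

end
end Pool.Agent.H37R3.Lag
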