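import Pool.Agent.H37R3.Lag.Leaf
import Pool.Agent.H37R3.CopL

/-! The leaf inequality for all six-tuples, for structures without listed six-vertex structures. -/

set_option autoImplicit false
set_option maxRecDepth 100000
set_option maxHeartbeats 4000000
open Finset

namespace Pool.Agent.H37R3.LagP
open Pool.Agent.H122R2.N6 Pool.Agent.H37R3.Pen Pool.Agent.H37R3.K5 Pool.Agent.H37R3.Lag Pool.Agent.H37R3.Cop Pool.Agent.H37R3.CopL

section
variable {V : Type} {E : V → V → V → ℕ}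

/-- the leaf inequality; `kb` recognises the forbidden structures on five vertices, `L` lists
forbidden structures on six vertices -/
def chkP (kb : ℕ → ℕ → ℕ → ℕ → ℕ → ℕ → ℕ → ℕ → ℕ → ℕ → Bool) (q4 : ℕ → ℕ → ℕ → ℕ) (q2 : ℕ → ℕ → ℕ) (g3 : ℕ → ℕ → ℕ) (G0 C : ℕ) (L : List ℕ) (b012 b013 b023 b123 b014 b024 b124 b034 b134 b234 : ℕ) : Bool :=
  or (kb b012 b013 b023 b123 b014 b024 b124 b034 b134 b234) (B2 fun b015 => B2 fun b025 => B2 fun b125 => B2 fun b035 => B2 fun b135 => B2 fun b235 => or (kb b012 b013 b023 b123 b015 b025 b125 b035 b135 b235) (B2 fun b045 => B2 fun b145 => B2 fun b245 => or (kb b012 b014 b024 b124 b015 b025 b125 b045 b145 b245) (B2 fun b345 => or (kb b013 b014 b034 b134 b015 b035 b135 b045 b145 b345) (or (kb b023 b024 b034 b234 b025 b035 b235 b045 b245 b345) (or (kb b123 b124 b134 b234 b125 b135 b235 b145 b245 b345) (or (Nat.ble (Nat.add (leaf4 q4 b012 b013 b023 b123 b014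 b024 b124 b034 b134 b234 b015 b025 b125 b035 b135 b235 b045 b145 b245 b345) (Nat.add (leaf2 q2 b012 b013 b023 b123 b014 b024 b124 b034 b134 b234 b015 b025 b125 b035 b135 b235 b045 b145 b245 b345) (leaf3 g3 G0 b012 b013 b023 b123 b014 b024 b124 b034 b134 b234 b015 b025 b125 b035 b135 b235 b045 b145 b245 b345))) C) (mem L b012 b013 b023 b123 b014 b024 b124 b034 b134 b234 b015 b025 b125 b035 b135 b235 b045 b145 b245 b345)))))))

theorem chkP_sound (hE : Sy E) {kb : ℕ → ℕ → ℕ → ℕ → ℕ → ℕ → ℕ → ℕ → ℕ → ℕ → Bool} {q4 : ℕ → ℕ → ℕ → ℕ} {q2 : ℕ → ℕ → ℕ} {g3 : ℕ → ℕ → ℕ} {G0 C : ℕ} {L : List ℕ} (hK : NoB kb E) (hL : ∀ a b c d e f : V, mem L (E a b c) (E a b d) (E a c d) (E b c d) (E a b e) (E a c e) (E b c e) (E a d e) (E b d e) (E c d e) (E a b f) (E a c f) (E b c f) (E a d f) (E b d f) (E c d f) (E a e f) (E b e f) (E c e f) (E d e f) = false) (a b c d e f : V)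
    (h : chkP kb q4 q2 g3 G0 C L (E a b c) (E a b d) (E a c d) (E b c d) (E a b e) (E a c e) (E b c e) (E a d e) (E b d e) (E c d e) = true) :
    K4l E q4 a b c d e f + (K2l E q2 a b c d e f + K3l E g3 G0 a b c d e f) ≤ C := by
  have h1 := (or_false_left (or_false_left (or_false_left (B2_true (or_false_left (B2_true (B2_true (B2_true (or_false_left (B2_true (B2_true (B2_true (B2_true (B2_true (B2_true (or_false_left h (hK a b c d e)) (hE.b a b f)) (hE.b a c f)) (hE.b b c f)) (hE.b a d f)) (hE.b b d f)) (hE.b c d f)) (hK a b c d f)) (hE.b a e f)) (hE.b b e f)) (hE.b c e f)) (hK a b c e f)) (hE.b d e f)) (hK a b d e f)) (hK a c d e f)) (hK b c d e f))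
  rw [Bool.or_eq_true] at h1
  rcases h1 with h1 | h1
  · exact Nat.le_of_ble_eq_true h1
  · rw [hL a b c d e f] at h1
    exact absurd h1 (by decide)

theorem rep_goodP (hE : Sy E) {kb : ℕ → ℕ → ℕ → ℕ → ℕ → ℕ → ℕ → ℕ → ℕ → ℕ → Bool} {q4 : ℕ → ℕ → ℕ → ℕ} {q2 : ℕ → ℕ → ℕ} {g3 : ℕ → ℕ → ℕ} {G0 C : ℕ} {L : List ℕ} (hK : NoB kb E) (hL : ∀ a b c d e f : V, mem L (E a b c) (E a b d) (E a c d) (E b c d) (E a b e) (E a c e) (E b c e) (E a d e) (E b d e) (E c d e) (E a b f) (E a c f) (E b c f) (E a d f) (E b d f) (E c d f) (E a e f) (E b e f) (E c e f) (E d e f) = false)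
    (hc : ∀ b012 b013 b023 b123 b014 b024 b124 b034 b134 b234 : ℕ, Bt b012 → Bt b013 → Bt b023 → Bt b123 → Bt b014 → Bt b024 → Bt b124 → Bt b034 → Bt b134 → Bt b234 → tg5 b012 b013 b023 b123 b014 b024 b124 b034 b134 b234 = 4 → chkP kb q4 q2 g3 G0 C L b012 b013 b023 b123 b014 b024 b124 b034 b134 b234 = true)
    (b012 b013 b023 b123 b014 b024 b124 b034 b134 b234 : ℕ) (ht : tg5 b012 b013 b023 b123 b014 b024 b124 b034 b134 b234 = 4) : GoodG E q4 q2 g3 G0 C b012 b013 b023 b123 b014 b024 b124 b034 b134 b234 := by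
  intro a b c d e f h0 h1 h2 h3 h4 h5 h6 h7 h8 h9
  subst h0 h1 h2 h3 h4 h5 h6 h7 h8 h9
  have h := hc _ _ _ _ _ _ _ _ _ _ (hE.b _ _ _) (hE.b _ _ _) (hE.b _ _ _) (hE.b _ _ _) (hE.b _ _ _) (hE.b _ _ _) (hE.b _ _ _) (hE.b _ _ _) (hE.b _ _ _) (hE.b _ _ _) ht
  have h2 := chkP_sound hE hK hL a b c d e f h
  rwa [K4l_eq E q4 hE.h132 hE.h231 hE.h213 hE.h312, K2l_eq E q2 hE.h132 hE.h231 hE.h213 hE.h312, K3l_eq E g3 G0 hE.h132 hE.h231 hE.h213 hE.h312] at h2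

theorem leafP_all (hE : Sy E) {kb : ℕ → ℕ → ℕ → ℕ → ℕ → ℕ → ℕ → ℕ → ℕ → ℕ → Bool} {q4 : ℕ → ℕ → ℕ → ℕ} {q2 : ℕ → ℕ → ℕ} {g3 : ℕ → ℕ → ℕ} {G0 C : ℕ} {L : List ℕ} (hL : ∀ a b c d e f : V, mem L (E a b c) (E a b d) (E a c d) (E b c d) (E a b e) (E a c e) (E b c e) (E a d e) (E b d e) (E c d e) (E a b f) (E a c f) (E b c f) (E a d f) (E b d f) (E c d f) (E a e f) (E b e f) (E c e f) (E d e f) = false) (hone : kb 1 1 1 1 1 1 1 1 1 1 = true) (hK : NoB kb E)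
    (hs4 : sym4 q4 = true) (hs2 : sym2 q2 = true)
    (hc : ∀ b012 b013 b023 b123 b014 b024 b124 b034 b134 b234 : ℕ, Bt b012 → Bt b013 → Bt b023 → Bt b123 → Bt b014 → Bt b024 → Bt b124 → Bt b034 → Bt b134 → Bt b234 → tg5 b012 b013 b023 b123 b014 b024 b124 b034 b134 b234 = 4 → chkP kb q4 q2 g3 G0 C L b012 b013 b023 b123 b014 b024 b124 b034 b134 b234 = true)
    (a b c d e f : V) : L4 E q4 a b c d e f + (L2 E q2 a b c d e f + L3 E g3 G0 a b c d e f) ≤ C := by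
  have h := (B2_true (B2_true (B2_true (B2_true (B2_true (B2_true (B2_true (B2_true (B2_true (B2_true walk5_all (hE.b a b c)) (hE.b a b d)) (hE.b a c d)) (hE.b b c d)) (hE.b a b e)) (hE.b a c e)) (hE.b b c e)) (hE.b a d e)) (hE.b b d e)) (hE.b c d e))
  have hw := or_false_left h (noK5_of hone (hE.b _ _ _) (hE.b _ _ _) (hE.b _ _ _) (hE.b _ _ _) (hE.b _ _ _) (hE.b _ _ _) (hE.b _ _ _) (hE.b _ _ _) (hE.b _ _ _) (hE.b _ _ _) (hK a b c d e))
  exact walk_goodG hE hs4 hs2 (fun b012 b013 b023 b123 b014 b024 b124 b034 b134 b234 h4 => rep_goodP hE hK hL hc b012 b013 b023 b123 b014 b024 b124 b034 b134 b234 h4) _ _ _ _ _ _ _ _ _ _ _ hw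
    a b c d e f rfl rfl rfl rfl rfl rfl rfl rfl rfl rfl

end
end Pool.Agent.H37R3.LagP
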