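import Pool.Agent.H37R3.Lag.Main
import Pool.Agent.H37R3.Lag.LeafP

/-! Structures without listed six-vertex structures. -/

set_option autoImplicit false
set_option maxRecDepth 100000
set_option maxHeartbeats 4000000
open Finset
open scoped Classical

namespace Pool.Agent.H37R3.LagP
open Pool.Agent.H122R2.N6 Pool.Agent.H37R3.Pen Pool.Agent.H37R3.K5 Pool.Agent.H37R3.Lag Pool.Agent.H37R3.Cop Pool.Agent.H37R3.CopL

/-- no six-tuple carries one of the listed structures -/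
def NoP (M : List ℕ) {V : Type} (E : V → V → V → ℕ) : Prop := ∀ x : Fin 6 → V, ∀ m ∈ M, ¬ Copy E m x

/-- the class of structures -/
def ClsP (kb : ℕ → ℕ → ℕ → ℕ → ℕ → ℕ → ℕ → ℕ → ℕ → ℕ → Bool) (M : List ℕ) {V : Type} (E : V → V → V → ℕ) : Prop :=
  Sy E ∧ NoB kb E ∧ NoP M E

theorem ClsP.pull {kb : ℕ → ℕ → ℕ → ℕ → ℕ → ℕ → ℕ → ℕ → ℕ → ℕ → Bool} {M : List ℕ} {V W : Type}
    {E : V → V → V → ℕ} (h : ClsP kb M E) (φ : W → V) : ClsP kb M (fun a b c => E (φ a) (φ b) (φ c)) :=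
  ⟨⟨fun _ _ _ => h.1.b _ _ _, fun _ _ _ => h.1.h213 _ _ _, fun _ _ _ => h.1.h132 _ _ _⟩,
    fun _ _ _ _ _ => h.2.1 _ _ _ _ _, fun x m hm hc => h.2.2 (φ ∘ x) m hm hc⟩

theorem noL {V : Type} {E : V → V → V → ℕ} (hE : Sy E) {L : List ℕ} {T : List (ℕ × ℕ × ℕ)} {M : List ℕ}
    (hL : isoM L T M = true) (hM : NoP M E) (a b c d e f : V) :
    mem L (E a b c) (E a b d) (E a c d) (E b c d) (E a b e) (E a c e) (E b c e) (E a d e) (E b d e) (E c d e) (E a b f) (E a c f) (E b c f) (E a d f) (E b d f) (E c d f) (E a e f) (E b e f) (E c e f) (E d e f) = false := by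
  by_contra hcon
  rw [Bool.not_eq_false] at hcon
  have h := hmemL_of hE hL a b c d e f hcon
  unfold XL6 XL at h
  split_ifs at h with h1
  obtain ⟨g, -, m, hm, hc⟩ := h1
  exact hM _ m hm hc

section
variable {V : Type} [Fintype V] {E : V → V → V → ℕ}

/-- in a structure with the maximum number of triples the degrees are almost equal -/
theorem clone {kb : ℕ → ℕ → ℕ → ℕ → ℕ → ℕ → ℕ → ℕ → ℕ → ℕ → Bool} {M : List ℕ} (h : ClsP kb M E)
    (hmax : ∀ E' : V → V → V → ℕ, ClsP kb M E' → TT E' ≤ TT E) (u v : V) :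
    (∑ e, ∑ f, (E v e f : ℤ)) ≤ ∑ e, ∑ f, (E u e f : ℤ) + 4 * Fintype.card V := by
  have h1 := hmax _ (h.pull (Function.update id u v))
  have h1' : ∑ a, ∑ b, ∑ c, (E (Function.update id u v a) (Function.update id u v b)
      (Function.update id u v c) : ℤ) ≤ ∑ a, ∑ b, ∑ c, (E a b c : ℤ) := by
    unfold TT at h1
    exact_mod_cast h1
  have hE := h.1
  have e1 : ∀ a b, ∑ c, (E a b (Function.update id u v c) : ℤ) =
      ∑ c, (E a b c : ℤ) + E a b v - E a b u := fun a b => sum_clone (fun c => (E a b c : ℤ)) u v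
  simp only [e1] at h1'
  have e2 : ∀ a, ∑ b, (∑ c, (E a (Function.update id u v b) c : ℤ)
      + E a (Function.update id u v b) v - E a (Function.update id u v b) u) =
      ∑ b, (∑ c, (E a b c : ℤ) + E a b v - E a b u) + (∑ c, (E a v c : ℤ) + E a v v - E a v u)
        - (∑ c, (E a u c : ℤ) + E a u v - E a u u) :=
    fun a => sum_clone (fun b => (∑ c, (E a b c : ℤ) + E a b v - E a b u)) u v
  simp only [e2] at h1'
  rw [sum_clone (fun a => ∑ b, (∑ c, (E a b c : ℤ) + E a b v - E a b u) +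
    (∑ c, (E a v c : ℤ) + E a v v - E a v u) - (∑ c, (E a u c : ℤ) + E a u v - E a u u)) u v] at h1'
  simp only [sum_add_distrib, sum_sub_distrib] at h1'
  set n : ℤ := (Fintype.card V : ℤ) with hn
  -- degrees
  have dv : ∑ a, ∑ b, (E a b v : ℤ) = ∑ e, ∑ f, (E v e f : ℤ) :=
    sum_congr rfl fun a _ => sum_congr rfl fun b _ => by rw [hE.h312 a b v]
  have du : ∑ a, ∑ b, (E a b u : ℤ) = ∑ e, ∑ f, (E u e f : ℤ) :=
    sum_congr rfl fun a _ => sum_congr rfl fun b _ => by rw [hE.h312 a b u]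
  have dv2 : ∑ a, ∑ c, (E a v c : ℤ) = ∑ e, ∑ f, (E v e f : ℤ) :=
    sum_congr rfl fun a _ => sum_congr rfl fun b _ => by rw [hE.h213 a v b]
  have du2 : ∑ a, ∑ c, (E a u c : ℤ) = ∑ e, ∑ f, (E u e f : ℤ) :=
    sum_congr rfl fun a _ => sum_congr rfl fun b _ => by rw [hE.h213 a u b]
  rw [dv, du, dv2, du2] at h1'
  have hb : ∀ x y z : V, (0 : ℤ) ≤ E x y z ∧ (E x y z : ℤ) ≤ 1 := fun x y z => by
    rcases hE.b x y z with h | h <;> rw [h] <;> simp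
  have hs : ∀ f : V → ℤ, (∀ a, 0 ≤ f a ∧ f a ≤ 1) → 0 ≤ ∑ a, f a ∧ ∑ a, f a ≤ n := by
    intro f hf
    refine ⟨sum_nonneg fun a _ => (hf a).1, ?_⟩
    calc ∑ a, f a ≤ ∑ a : V, (1 : ℤ) := sum_le_sum fun a _ => (hf a).2
      _ = n := by simp [hn]
  have hn1 : 1 ≤ n := by
    rw [hn]
    have : 0 < Fintype.card V := Fintype.card_pos_iff.mpr ⟨u⟩
    exact_mod_cast this
  have a1 := hs (fun a => (E a v v : ℤ)) (fun a => hb _ _ _)
  have a2 := hs (fun a => (E a v u : ℤ)) (fun a => hb _ _ _)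
  have a3 := hs (fun a => (E a u v : ℤ)) (fun a => hb _ _ _)
  have a4 := hs (fun a => (E a u u : ℤ)) (fun a => hb _ _ _)
  have a5 := hs (fun a => (E v a v : ℤ)) (fun a => hb _ _ _)
  have a6 := hs (fun a => (E v a u : ℤ)) (fun a => hb _ _ _)
  have a7 := hs (fun a => (E u a v : ℤ)) (fun a => hb _ _ _)
  have a8 := hs (fun a => (E u a u : ℤ)) (fun a => hb _ _ _)
  have a9 := hs (fun a => (E v v a : ℤ)) (fun a => hb _ _ _)
  have a10 := hs (fun a => (E v u a : ℤ)) (fun a => hb _ _ _)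
  have a11 := hs (fun a => (E u v a : ℤ)) (fun a => hb _ _ _)
  have a12 := hs (fun a => (E u u a : ℤ)) (fun a => hb _ _ _)
  have b1 := hb v v v
  have b2 := hb v v u
  have b3 := hb v u v
  have b4 := hb v u u
  have b5 := hb u v v
  have b6 := hb u v u
  have b7 := hb u u v
  have b8 := hb u u u
  linarith [a1.1, a1.2, a2.1, a2.2, a3.1, a3.2, a4.1, a4.2, a5.1, a5.2, a6.1, a6.2, a7.1, a7.2,
    a8.1, a8.2, a9.1, a9.2, a10.1, a10.2, a11.1, a11.2, a12.1, a12.2, b1.1, b1.2, b2.1, b2.2,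
    b3.1, b3.2, b4.1, b4.2, b5.1, b5.2, b6.1, b6.2, b7.1, b7.2, b8.1, b8.2]

end

variable (kb : ℕ → ℕ → ℕ → ℕ → ℕ → ℕ → ℕ → ℕ → ℕ → ℕ → Bool) (ML : List ℕ)

/-- the densities of the structures of the class -/
def dens : Set ℝ := {x : ℝ | ∃ (V : Type) (_ : Fintype V) (E : V → V → V → ℕ), ClsP kb ML E ∧
  0 < Fintype.card V ∧ x = (TT E : ℝ) / (Fintype.card V : ℝ) ^ 3}

theorem dens_bdd : BddAbove (dens kb ML) := by
  refine ⟨1, ?_⟩
  rintro x ⟨V, _, E, hE, hn, rfl⟩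
  rw [div_le_one (by positivity)]
  exact_mod_cast TT_le hE.1

theorem le_sup {V : Type} [Fintype V] {E : V → V → V → ℕ} (h : ClsP kb ML E) :
    (TT E : ℝ) ≤ sSup (dens kb ML) * (Fintype.card V : ℝ) ^ 3 := by
  rcases Nat.eq_zero_or_pos (Fintype.card V) with h0 | h0
  · have h1 := TT_le h.1
    rw [h0] at h1 ⊢
    have h2 : TT E = 0 := by simpa using h1
    rw [h2]
    simp
  · have h1 : (TT E : ℝ) / (Fintype.card V : ℝ) ^ 3 ≤ sSup (dens kb ML) :=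
      le_csSup (dens_bdd kb ML) ⟨V, _, E, h, h0, rfl⟩
    rwa [div_le_iff₀ (by positivity)] at h1

theorem exists_max {kb : ℕ → ℕ → ℕ → ℕ → ℕ → ℕ → ℕ → ℕ → ℕ → ℕ → Bool} {ML : List ℕ} {V : Type} [Fintype V]
    {E0 : V → V → V → ℕ} (h0 : ClsP kb ML E0) :
    ∃ E : V → V → V → ℕ, ClsP kb ML E ∧ ∀ E' : V → V → V → ℕ, ClsP kb ML E' → TT E' ≤ TT E := by
  have hne : {t : ℕ | ∃ E : V → V → V → ℕ, ClsP kb ML E ∧ TT E = t}.Nonempty := ⟨_, E0, h0, rfl⟩
  have hb : BddAbove {t : ℕ | ∃ E : V → V → V → ℕ, ClsP kb ML E ∧ TT E = t} := by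
    refine ⟨Fintype.card V ^ 3, ?_⟩
    rintro t ⟨E, hE, rfl⟩
    exact TT_le hE.1
  obtain ⟨E, hE, ht⟩ := Nat.sSup_mem hne hb
  refine ⟨E, hE, fun E' hE' => ?_⟩
  rw [ht]
  exact le_csSup hb ⟨E', hE', rfl⟩

theorem upper (z c : ℕ → ℕ) (D N G0 M C : ℕ) (O4 O2 : ℤ) (g3 : ℕ → ℕ → ℕ) (hD : 0 < D)
    (hg : ∀ s t, s < 2 → t < 2 → (g3 s t : ℤ) = G0 + z s * ((N : ℤ) - D * t))
    (h0 : z 0 ≤ 9 * c 5) (h1 : z 1 ≤ 9 * c 7) (hM : ∀ i, c i ≤ M)
    (hC : (C : ℤ) + 1 ≤ 15 * O4 + 45 * O2 + 20 * G0)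
    (core : ∀ {V : Type} [Fintype V] (E : V → V → V → ℕ), ClsP kb ML E →
      180 * ∑ x : Fin 6 → V, hh E c D N (x 0) (x 1) (x 2) (x 3) (x 4) (x 5)
      + 20 * ∑ x : Fin 6 → V, (F3 E g3 G0 (x 0) (x 1) (x 2) (x 3) (x 4) (x 5) : ℤ)
      + (15 * O4 + 45 * O2) * (Fintype.card V : ℤ) ^ 6
      ≤ C * (Fintype.card V : ℤ) ^ 6)
    {V : Type} [Fintype V] (E : V → V → V → ℕ) (hE : ClsP kb ML E) :
    D * TT E ≤ N * Fintype.card V ^ 3 := by
  by_contra hcon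
  rw [not_le] at hcon
  have hV : 0 < Fintype.card V := by
    rcases Nat.eq_zero_or_pos (Fintype.card V) with h | h
    · have h2 := TT_le hE.1
      rw [h] at h2 hcon
      have h3 : TT E = 0 := by simpa using h2
      rw [h3] at hcon
      simp at hcon
    · exact h
  set p := sSup (dens kb ML) with hp
  have hDr : (0 : ℝ) < D := by exact_mod_cast hD
  have hVr : (0 : ℝ) < (Fintype.card V : ℝ) := by exact_mod_cast hV
  have hNp : (N : ℝ) ≤ D * p := by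
    have h2 := le_sup kb ML hE
    rw [← hp] at h2
    have h3 : (N : ℝ) * (Fintype.card V : ℝ) ^ 3 < D * TT E := by exact_mod_cast hcon
    have h4 : (N : ℝ) * (Fintype.card V : ℝ) ^ 3 < (D * p) * (Fintype.card V : ℝ) ^ 3 := by
      calc _ < (D : ℝ) * TT E := h3
        _ ≤ D * (p * (Fintype.card V : ℝ) ^ 3) := mul_le_mul_of_nonneg_left h2 hDr.le
        _ = _ := by ring
    exact (lt_of_mul_lt_mul_right h4 (by positivity)).le
  set ε : ℝ := 1 / (360 * D * (M + 1)) with hε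
  have hε0 : 0 < ε := by rw [hε]; positivity
  -- a structure of density close to the supremum
  have hne : (dens kb ML).Nonempty := ⟨_, V, _, E, hE, hV, rfl⟩
  obtain ⟨x, ⟨V1, _, E1, hE1, hV1, rfl⟩, hx⟩ := exists_lt_of_lt_csSup hne
    (show p - ε / 2 < sSup (dens kb ML) by rw [← hp]; linarith)
  obtain ⟨t, ht⟩ := exists_nat_gt (8 / ε)
  have ht0 : 0 < t := by
    have : (0 : ℝ) < t := lt_trans (by positivity) ht
    exact_mod_cast this
  set E2 : (V1 × Fin t) → (V1 × Fin t) → (V1 × Fin t) → ℕ := fun a b c => E1 a.1 b.1 c.1 with hE2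
  have hE2' : ClsP kb ML E2 := hE1.pull Prod.fst
  obtain ⟨F, hF, hmax⟩ := exists_max hE2'
  set n : ℝ := (Fintype.card (V1 × Fin t) : ℝ) with hn
  have hcard : Fintype.card (V1 × Fin t) = Fintype.card V1 * t := by
    rw [Fintype.card_prod, Fintype.card_fin]
  have hn0 : 0 < n := by
    rw [hn, hcard]
    exact_mod_cast Nat.mul_pos hV1 ht0
  have hTF : (p - ε / 2) * n ^ 3 ≤ (TT F : ℝ) := by
    have h2 : TT E2 ≤ TT F := hmax E2 hE2'
    rw [hE2, TT_blow] at h2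
    have h3 : (t : ℝ) ^ 3 * TT E1 ≤ TT F := by exact_mod_cast h2
    have h4 : (0 : ℝ) < (Fintype.card V1 : ℝ) ^ 3 := by positivity
    rw [lt_div_iff₀ h4] at hx
    have ht3 : (0 : ℝ) ≤ (t : ℝ) ^ 3 := by positivity
    calc (p - ε / 2) * n ^ 3 = (t : ℝ) ^ 3 * ((p - ε / 2) * (Fintype.card V1 : ℝ) ^ 3) := by
          rw [hn, hcard]; push_cast; ring
      _ ≤ (t : ℝ) ^ 3 * TT E1 := mul_le_mul_of_nonneg_left hx.le ht3
      _ ≤ TT F := h3
  have hn8 : 4 * n ≤ ε / 2 * n ^ 2 := by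
    have h2 : (t : ℝ) ≤ n := by
      rw [hn, hcard]
      have : t ≤ Fintype.card V1 * t := Nat.le_mul_of_pos_left t hV1
      exact_mod_cast this
    have h3 : 8 / ε < n := lt_of_lt_of_le ht h2
    rw [div_lt_iff₀ hε0] at h3
    nlinarith
  have hA : ∀ a : V1 × Fin t, (p - ε) * n ^ 2 ≤ ∑ e, ∑ f, (F a e f : ℝ) := by
    intro a
    have h2 : ∀ v, (∑ e, ∑ f, (F v e f : ℝ)) ≤ ∑ e, ∑ f, (F a e f : ℝ) + 4 * n := by
      intro v
      have h3 := clone hF hmax a v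
      rw [hn]
      exact_mod_cast h3
    have h3 : (TT F : ℝ) ≤ n * (∑ e, ∑ f, (F a e f : ℝ)) + 4 * n ^ 2 := by
      have h4 : (TT F : ℝ) = ∑ v, ∑ e, ∑ f, (F v e f : ℝ) := by unfold TT; push_cast; rfl
      rw [h4]
      calc ∑ v, ∑ e, ∑ f, (F v e f : ℝ) ≤ ∑ v : V1 × Fin t, (∑ e, ∑ f, (F a e f : ℝ) + 4 * n) :=
            sum_le_sum fun v _ => h2 v
        _ = n * (∑ e, ∑ f, (F a e f : ℝ)) + 4 * n ^ 2 := by
            rw [sum_const, card_univ, nsmul_eq_mul, ← hn]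
            ring
    have h5 : n * ((p - ε / 2) * n ^ 2) ≤ n * (∑ e, ∑ f, (F a e f : ℝ) + 4 * n) := by
      calc n * ((p - ε / 2) * n ^ 2) = (p - ε / 2) * n ^ 3 := by ring
        _ ≤ (TT F : ℝ) := hTF
        _ ≤ n * (∑ e, ∑ f, (F a e f : ℝ)) + 4 * n ^ 2 := h3
        _ = _ := by ring
    have h6 := le_of_mul_le_mul_left h5 hn0
    linarith
  have hB : ∀ U : Finset (V1 × Fin t), (TU F U : ℝ) ≤ p * (U.card : ℝ) ^ 3 := by
    intro U
    rw [TU_eq]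
    have h2 := le_sup kb ML (hF.pull (fun a : U => (a : V1 × Fin t)))
    rwa [Fintype.card_coe, ← hp] at h2
  have hgap := gap F hF.1 z c D N G0 M g3 hg h0 h1 hM p ε hε0.le hA hB hNp
  have hcore := core F hF
  rw [← hn] at hgap
  have hcore' : ((180 * ∑ x : Fin 6 → V1 × Fin t, hh F c D N (x 0) (x 1) (x 2) (x 3) (x 4) (x 5)
      + 20 * ∑ x : Fin 6 → V1 × Fin t, (F3 F g3 G0 (x 0) (x 1) (x 2) (x 3) (x 4) (x 5) : ℤ) : ℤ) : ℝ)
      + (15 * O4 + 45 * O2) * n ^ 6 ≤ C * n ^ 6 := by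
    rw [hn]
    exact_mod_cast hcore
  have hCr : (C : ℝ) + 1 ≤ 15 * O4 + 45 * O2 + 20 * G0 := by exact_mod_cast hC
  have hn6 : 0 < n ^ 6 := by positivity
  have h7 : 180 * D * ε * M * n ^ 6 < 1 * n ^ 6 := by
    refine mul_lt_mul_of_pos_right ?_ hn6
    rw [hε]
    have hM1 : (0 : ℝ) < (M : ℝ) + 1 := by positivity
    rw [mul_one_div, div_mul_eq_mul_div, div_lt_one (by positivity)]
    have : (0 : ℝ) ≤ D * M := by positivity
    nlinarith
  have h8 := mul_le_mul_of_nonneg_right hCr hn6.le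
  nlinarith

end Pool.Agent.H37R3.LagP
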