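import Pool.Agent.H37R3.Lag.Gap2

/-! Structures of maximum density: blow-ups, clones, and the resulting upper bound. -/

set_option autoImplicit false
set_option maxRecDepth 100000
set_option maxHeartbeats 4000000
open Finset
open scoped Classical

namespace Pool.Agent.H37R3.Lag
open Pool.Agent.H122R2.N6 Pool.Agent.H37R3.Pen Pool.Agent.H37R3.K5

/-- the class of structures -/
def Cls (kb : ℕ → ℕ → ℕ → ℕ → ℕ → ℕ → ℕ → ℕ → ℕ → ℕ → Bool) {V : Type} (E : V → V → V → ℕ) : Prop :=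
  Sy E ∧ NoB kb E

theorem Cls.pull {kb : ℕ → ℕ → ℕ → ℕ → ℕ → ℕ → ℕ → ℕ → ℕ → ℕ → Bool} {V W : Type}
    {E : V → V → V → ℕ} (h : Cls kb E) (φ : W → V) : Cls kb (fun a b c => E (φ a) (φ b) (φ c)) :=
  ⟨⟨fun _ _ _ => h.1.b _ _ _, fun _ _ _ => h.1.h213 _ _ _, fun _ _ _ => h.1.h132 _ _ _⟩,
    fun _ _ _ _ _ => h.2 _ _ _ _ _⟩

/-- number of ordered triples -/
def TT {V : Type} [Fintype V] (E : V → V → V → ℕ) : ℕ := ∑ a, ∑ b, ∑ c, E a b c

section
variable {V : Type} [Fintype V] {E : V → V → V → ℕ}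

theorem TT_le (hE : Sy E) : TT E ≤ Fintype.card V ^ 3 := by
  unfold TT
  have hb : ∀ x y z : V, E x y z ≤ 1 := fun x y z => by
    rcases hE.b x y z with h | h <;> omega
  calc ∑ a, ∑ b, ∑ c, E a b c ≤ ∑ a : V, ∑ b : V, ∑ c : V, 1 :=
        sum_le_sum fun a _ => sum_le_sum fun b _ => sum_le_sum fun c _ => hb a b c
    _ = Fintype.card V ^ 3 := by
        simp only [sum_const, card_univ, smul_eq_mul, mul_one]
        ring

theorem TU_eq (U : Finset V) : TU E U = TT (fun a b c : U => E a b c) := by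
  unfold TU TT
  rw [← sum_coe_sort U]
  refine sum_congr rfl fun a _ => ?_
  rw [← sum_coe_sort U]
  refine sum_congr rfl fun b _ => ?_
  rw [← sum_coe_sort U]

theorem TT_blow (t : ℕ) : TT (fun a b c : V × Fin t => E a.1 b.1 c.1) = t ^ 3 * TT E := by
  unfold TT
  simp only [Fintype.sum_prod_type, sum_const, card_univ, Fintype.card_fin, smul_eq_mul,
    ← mul_sum]
  ring

/-- sums over a clone -/
theorem sum_clone (f : V → ℤ) (u v : V) :
    ∑ a, f (Function.update id u v a) = ∑ a, f a + f v - f u := by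
  have h : ∀ a, f (Function.update id u v a) = f a + if a = u then f v - f u else 0 := by
    intro a
    by_cases h : a = u
    · subst h; simp
    · simp [h]
  simp only [h, sum_add_distrib, sum_ite_eq', mem_univ, if_true]
  ring

/-- in a structure with the maximum number of triples the degrees are almost equal -/
theorem clone {kb : ℕ → ℕ → ℕ → ℕ → ℕ → ℕ → ℕ → ℕ → ℕ → ℕ → Bool} (h : Cls kb E)
    (hmax : ∀ E' : V → V → V → ℕ, Cls kb E' → TT E' ≤ TT E) (u v : V) :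
    (∑ e, ∑ f, (E v e f : ℤ)) ≤ ∑ e, ∑ f, (E u e f : ℤ) + 4 * Fintype.card V := by
  have h1 := hmax _ (h.pull (Function.update id u v))
  have h1' : ∑ a, ∑ b, ∑ c, (E (Function.update id u v a) (Function.update id u v b)
      (Function.update id u v c) : ℤ) ≤ ∑ a, ∑ b, ∑ c, (E a b c : ℤ) := by
    unfold TT at h1
    exact_mod_cast h1
  have hE := h.1
  have e1 : ∀ a b, ∑ c, (E a b (Function.update id u v c) : ℤ) =
      ∑ c, (E a b c : ℤ) + E a b v - E a b u := fun a b => sum_clone (fun c => (E a b c : ℤ)) u v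
  simp only [e1] at h1'
  have e2 : ∀ a, ∑ b, (∑ c, (E a (Function.update id u v b) c : ℤ)
      + E a (Function.update id u v b) v - E a (Function.update id u v b) u) =
      ∑ b, (∑ c, (E a b c : ℤ) + E a b v - E a b u) + (∑ c, (E a v c : ℤ) + E a v v - E a v u)
        - (∑ c, (E a u c : ℤ) + E a u v - E a u u) :=
    fun a => sum_clone (fun b => (∑ c, (E a b c : ℤ) + E a b v - E a b u)) u v
  simp only [e2] at h1'
  rw [sum_clone (fun a => ∑ b, (∑ c, (E a b c : ℤ) + E a b v - E a b u) +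
    (∑ c, (E a v c : ℤ) + E a v v - E a v u) - (∑ c, (E a u c : ℤ) + E a u v - E a u u)) u v] at h1'
  simp only [sum_add_distrib, sum_sub_distrib] at h1'
  set n : ℤ := (Fintype.card V : ℤ) with hn
  -- degrees
  have dv : ∑ a, ∑ b, (E a b v : ℤ) = ∑ e, ∑ f, (E v e f : ℤ) :=
    sum_congr rfl fun a _ => sum_congr rfl fun b _ => by rw [hE.h312 a b v]
  have du : ∑ a, ∑ b, (E a b u : ℤ) = ∑ e, ∑ f, (E u e f : ℤ) :=
    sum_congr rfl fun a _ => sum_congr rfl fun b _ => by rw [hE.h312 a b u]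
  have dv2 : ∑ a, ∑ c, (E a v c : ℤ) = ∑ e, ∑ f, (E v e f : ℤ) :=
    sum_congr rfl fun a _ => sum_congr rfl fun b _ => by rw [hE.h213 a v b]
  have du2 : ∑ a, ∑ c, (E a u c : ℤ) = ∑ e, ∑ f, (E u e f : ℤ) :=
    sum_congr rfl fun a _ => sum_congr rfl fun b _ => by rw [hE.h213 a u b]
  rw [dv, du, dv2, du2] at h1'
  have hb : ∀ x y z : V, (0 : ℤ) ≤ E x y z ∧ (E x y z : ℤ) ≤ 1 := fun x y z => by
    rcases hE.b x y z with h | h <;> rw [h] <;> simp
  have hs : ∀ f : V → ℤ, (∀ a, 0 ≤ f a ∧ f a ≤ 1) → 0 ≤ ∑ a, f a ∧ ∑ a, f a ≤ n := by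
    intro f hf
    refine ⟨sum_nonneg fun a _ => (hf a).1, ?_⟩
    calc ∑ a, f a ≤ ∑ a : V, (1 : ℤ) := sum_le_sum fun a _ => (hf a).2
      _ = n := by simp [hn]
  have hn1 : 1 ≤ n := by
    rw [hn]
    have : 0 < Fintype.card V := Fintype.card_pos_iff.mpr ⟨u⟩
    exact_mod_cast this
  have a1 := hs (fun a => (E a v v : ℤ)) (fun a => hb _ _ _)
  have a2 := hs (fun a => (E a v u : ℤ)) (fun a => hb _ _ _)
  have a3 := hs (fun a => (E a u v : ℤ)) (fun a => hb _ _ _)
  have a4 := hs (fun a => (E a u u : ℤ)) (fun a => hb _ _ _)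
  have a5 := hs (fun a => (E v a v : ℤ)) (fun a => hb _ _ _)
  have a6 := hs (fun a => (E v a u : ℤ)) (fun a => hb _ _ _)
  have a7 := hs (fun a => (E u a v : ℤ)) (fun a => hb _ _ _)
  have a8 := hs (fun a => (E u a u : ℤ)) (fun a => hb _ _ _)
  have a9 := hs (fun a => (E v v a : ℤ)) (fun a => hb _ _ _)
  have a10 := hs (fun a => (E v u a : ℤ)) (fun a => hb _ _ _)
  have a11 := hs (fun a => (E u v a : ℤ)) (fun a => hb _ _ _)
  have a12 := hs (fun a => (E u u a : ℤ)) (fun a => hb _ _ _)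
  have b1 := hb v v v
  have b2 := hb v v u
  have b3 := hb v u v
  have b4 := hb v u u
  have b5 := hb u v v
  have b6 := hb u v u
  have b7 := hb u u v
  have b8 := hb u u u
  linarith [a1.1, a1.2, a2.1, a2.2, a3.1, a3.2, a4.1, a4.2, a5.1, a5.2, a6.1, a6.2, a7.1, a7.2,
    a8.1, a8.2, a9.1, a9.2, a10.1, a10.2, a11.1, a11.2, a12.1, a12.2, b1.1, b1.2, b2.1, b2.2,
    b3.1, b3.2, b4.1, b4.2, b5.1, b5.2, b6.1, b6.2, b7.1, b7.2, b8.1, b8.2]

end
end Pool.Agent.H37R3.Lag
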